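import Pool.Agent.Run7.h527.TP.Dn

/-! From the integers with two large prime factors to nearly all integers. -/

set_option autoImplicit false

namespace Run7.h527.TP

/-- a property which fails rarely for the integers with `Two τ` fails rarely -/
theorem combine {τ ε : ℝ} (hε : 0 < ε) (hd : ∃ N₀ : ℕ, ∀ N : ℕ, N₀ ≤ N →
      ({m : ℕ | 1 ≤ m ∧ m ≤ N ∧ ¬ Two τ m}.ncard : ℝ) ≤ ε / 2 * N) (Q : ℕ → Prop)
    (h : ∃ η : ℝ, 0 < η ∧ ∃ N₀ : ℕ, ∀ N : ℕ, N₀ ≤ N →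
      ({m : ℕ | 1 ≤ m ∧ m ≤ N ∧ Two τ m ∧ Q m}.ncard : ℝ) ≤ (N : ℝ) ^ (1 - η)) :
    ∃ N₀ : ℕ, ∀ N : ℕ, N₀ ≤ N → ({m : ℕ | 1 ≤ m ∧ m ≤ N ∧ Q m}.ncard : ℝ) ≤ ε * N := by
  obtain ⟨N₁, hN₁⟩ := hd
  obtain ⟨η, hη, N₂, hN₂⟩ := h
  obtain ⟨N₃, hN₃⟩ := Filter.eventually_atTop.1
    (((tendsto_rpow_atTop hη).comp tendsto_natCast_atTop_atTop).eventually_ge_atTop (2 / ε))
  refine ⟨max (max N₁ N₂) (max N₃ 1), fun N hN => ?_⟩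
  have h1 := hN₁ N (((le_max_left _ _).trans (le_max_left _ _)).trans hN)
  have h2 := hN₂ N (((le_max_right _ _).trans (le_max_left _ _)).trans hN)
  have h3 := hN₃ N (((le_max_left _ _).trans (le_max_right _ _)).trans hN)
  have h4 : 1 ≤ N := ((le_max_right _ _).trans (le_max_right _ _)).trans hN
  simp only [Function.comp] at h3
  have hN0 : (0 : ℝ) < N := by exact_mod_cast h4
  have h5 : (N : ℝ) ^ (1 - η) ≤ ε / 2 * N := by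
    have e : (N : ℝ) ^ (1 - η) * (N : ℝ) ^ η = N := by
      rw [← Real.rpow_add hN0]
      norm_num
    have h6 : 0 < (N : ℝ) ^ (1 - η) := by positivity
    calc (N : ℝ) ^ (1 - η) = ε / 2 * ((N : ℝ) ^ (1 - η) * (2 / ε)) := by field_simp
      _ ≤ ε / 2 * ((N : ℝ) ^ (1 - η) * (N : ℝ) ^ η) :=
        mul_le_mul_of_nonneg_left (mul_le_mul_of_nonneg_left h3 h6.le) (by linarith)
      _ = ε / 2 * N := by rw [e]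
  have hsub : {m : ℕ | 1 ≤ m ∧ m ≤ N ∧ Q m} ⊆ {m : ℕ | 1 ≤ m ∧ m ≤ N ∧ ¬ Two τ m} ∪
      {m : ℕ | 1 ≤ m ∧ m ≤ N ∧ Two τ m ∧ Q m} := by
    rintro m ⟨e1, e2, e3⟩
    by_cases hT : Two τ m
    · exact Or.inr ⟨e1, e2, hT, e3⟩
    · exact Or.inl ⟨e1, e2, hT⟩
  have hfin : ({m : ℕ | 1 ≤ m ∧ m ≤ N ∧ ¬ Two τ m} ∪ {m : ℕ | 1 ≤ m ∧ m ≤ N ∧ Two τ m ∧ Q m}).Finite :=
    (Set.finite_Icc 1 N).subset fun m hm => by
      rcases hm with hm | hm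
      · exact ⟨hm.1, hm.2.1⟩
      · exact ⟨hm.1, hm.2.1⟩
  have h6 := (Set.ncard_le_ncard hsub hfin).trans (Set.ncard_union_le _ _)
  have h7 : ({m : ℕ | 1 ≤ m ∧ m ≤ N ∧ Q m}.ncard : ℝ) ≤ ({m : ℕ | 1 ≤ m ∧ m ≤ N ∧ ¬ Two τ m}.ncard : ℝ) +
      ({m : ℕ | 1 ≤ m ∧ m ≤ N ∧ Two τ m ∧ Q m}.ncard : ℝ) := by exact_mod_cast h6
  linarith

end Run7.h527.TP
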