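import Mathlib
import Pool.Agent.N733.TG.K
import Pool.Agent.H373R2.T4.DivB

set_option autoImplicit false

/-! Functions which are bilinear in two large primes: aliquot sums, cototients, the arithmetic derivative (helper527).
If `g (k p q) = a p q + b (p + q) + e` then `(a p + b) (a q + b) = a g + b² - a e`, so that for given `k` a value is taken
for few pairs `p, q`. -/

namespace Run7.h527.TP

open Finset Classical

/-- `g` grows at most like `m^(1+o(1))`, and for `k ≥ 2` there are integers `a ≠ 0`, `b`, `e` of polynomial size such that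
`g (k p q) = a p q + b (p + q) + e > 0` and `a p + b ≠ 0` for all primes `p ≠ q` which do not divide `k`. -/
structure Bil (g : ℕ → ℕ) : Prop where
  growth : ∀ ε : ℝ, 0 < ε → ∃ C : ℝ, ∀ m : ℕ, 1 ≤ m → (g m : ℝ) ≤ C * (m : ℝ) ^ (1 + ε)
  form : ∃ (C : ℕ) (a b e : ℕ → ℤ), ∀ k : ℕ, 2 ≤ k →
    a k ≠ 0 ∧ |a k| ≤ C * k ^ C ∧ |b k| ≤ C * k ^ C ∧ |e k| ≤ C * k ^ C ∧
    ∀ p q : ℕ, p.Prime → q.Prime → p ≠ q → ¬ p ∣ k → ¬ q ∣ k →
      a k * p + b k ≠ 0 ∧ 0 < g (k * p * q) ∧ (g (k * p * q) : ℤ) = a k * (p * q) + b k * (p + q) + e k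

/-- `m = k p q` with `k ≥ 2` and different primes `p`, `q` which do not divide `k`, and `p q ≥ m ^ τ` -/
def Two (τ : ℝ) (m : ℕ) : Prop :=
  ∃ k p q : ℕ, 2 ≤ k ∧ p.Prime ∧ q.Prime ∧ p ≠ q ∧ ¬ p ∣ k ∧ ¬ q ∣ k ∧ m = k * p * q ∧ (m : ℝ) ^ τ ≤ ((p * q : ℕ) : ℝ)

/-- for given `k` every value is taken for few pairs of primes -/
lemma fib {g : ℕ → ℕ} {k n : ℕ} {a b e : ℤ} (ha : a ≠ 0)
    (h : ∀ p q : ℕ, p.Prime → q.Prime → p ≠ q → ¬ p ∣ k → ¬ q ∣ k →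
      a * p + b ≠ 0 ∧ 0 < g (k * p * q) ∧ (g (k * p * q) : ℤ) = a * (p * q) + b * (p + q) + e)
    (T : Finset ℕ) (hT : ∀ m ∈ T, g m = n ∧ ∃ p q : ℕ, p.Prime ∧ q.Prime ∧ p ≠ q ∧ ¬ p ∣ k ∧ ¬ q ∣ k ∧ m = k * p * q) :
    T.card ≤ 2 * (a * n + b ^ 2 - a * e).natAbs.divisors.card := by
  obtain ⟨R, hR⟩ : ∃ R : ℤ, R = a * n + b ^ 2 - a * e := ⟨_, rfl⟩
  rw [← hR]
  have hT2 : ∀ m : ℕ, m ∈ T → ∃ p q : ℕ, m = k * p * q ∧ (a * p + b) * (a * q + b) = R ∧ a * p + b ≠ 0 ∧ R ≠ 0 := by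
    intro m hm
    obtain ⟨hgn, p, q, hp, hq, hpq, hpk, hqk, hm2⟩ := hT m hm
    obtain ⟨h1, h2, h3⟩ := h p q hp hq hpq hpk hqk
    obtain ⟨h1', -, -⟩ := h q p hq hp (Ne.symm hpq) hqk hpk
    have h4 : (a * p + b) * (a * q + b) = R := by
      rw [hR, ← hgn, hm2, h3]
      ring
    exact ⟨p, q, hm2, h4, h1, by rw [← h4]; exact mul_ne_zero h1 h1'⟩
  choose! P Q hPQ using hT2
  have hcard : ((R.natAbs.divisors ×ˢ (univ : Finset Bool))).card = 2 * R.natAbs.divisors.card := by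
    rw [card_product]
    simp [mul_comm]
  rw [← hcard]
  refine card_le_card_of_injOn (fun m => ((a * (P m : ℤ) + b).natAbs, decide (0 ≤ a * (P m : ℤ) + b))) ?_ ?_
  · intro m hm
    obtain ⟨h1, h2, h3, h4⟩ := hPQ m hm
    simp only [coe_product, coe_univ, Set.mem_prod, Set.mem_univ, and_true, mem_coe, Nat.mem_divisors]
    refine ⟨?_, Int.natAbs_ne_zero.2 h4⟩
    exact Int.natAbs_dvd_natAbs.2 ⟨_, h2.symm⟩
  · intro m hm m' hm' heq
    obtain ⟨h1, h2, h3, h4⟩ := hPQ m hm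
    obtain ⟨h1', h2', h3', h4'⟩ := hPQ m' hm'
    simp only [Prod.mk.injEq] at heq
    obtain ⟨e1, e2⟩ := heq
    have e3 : a * (P m : ℤ) + b = a * (P m' : ℤ) + b := by
      rcases Int.natAbs_eq_natAbs_iff.1 e1 with h5 | h5
      · exact h5
      · have h6 : (0 ≤ a * (P m : ℤ) + b) ↔ (0 ≤ a * (P m' : ℤ) + b) := by
          constructor
          · intro h7
            exact of_decide_eq_true (by rw [← e2]; exact decide_eq_true h7)
          · intro h7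
            exact of_decide_eq_true (by rw [e2]; exact decide_eq_true h7)
        omega
    have e4 : P m = P m' := by
      have : a * (P m : ℤ) = a * (P m' : ℤ) := by linarith
      exact_mod_cast mul_left_cancel₀ ha this
    have e5 : a * (Q m : ℤ) + b = a * (Q m' : ℤ) + b := by
      rw [← h2', ← e3] at h2
      exact mul_left_cancel₀ h3 h2
    have e6 : Q m = Q m' := by
      have : a * (Q m : ℤ) = a * (Q m' : ℤ) := by linarith
      exact_mod_cast mul_left_cancel₀ ha this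
    rw [h1, h1', e4, e6]

/-- the size of the number which is factorised -/
lemma res_le {C k n N : ℕ} {a b e : ℤ} (ha : |a| ≤ C * k ^ C) (hb : |b| ≤ C * k ^ C) (he : |e| ≤ C * k ^ C)
    (hk : k ≤ N) (hn : n ≤ N ^ 3) (hN : 3 * C ^ 2 + 3 * C + 1 ≤ N) :
    (a * n + b ^ 2 - a * e).natAbs ≤ N ^ (2 * C + 4) := by
  have hN1 : 1 ≤ N := by omega
  obtain ⟨M, hM⟩ : ∃ M : ℤ, M = C * N ^ C := ⟨_, rfl⟩
  have hkN : (C * k ^ C : ℤ) ≤ M := by
    rw [hM]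
    have h1 : (k : ℤ) ^ C ≤ N ^ C := pow_le_pow_left₀ (by positivity) (by exact_mod_cast hk) C
    exact mul_le_mul_of_nonneg_left h1 (by positivity)
  have ha' := ha.trans hkN
  have hb' := hb.trans hkN
  have he' := he.trans hkN
  have hM0 : 0 ≤ M := (abs_nonneg _).trans ha'
  have h1 : |a * n + b ^ 2 - a * e| ≤ M * N ^ 3 + M ^ 2 + M ^ 2 := by
    have e1 : |a * n| ≤ M * N ^ 3 := by
      rw [abs_mul, Nat.abs_cast]
      exact mul_le_mul ha' (by exact_mod_cast hn) (by positivity) hM0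
    have e2 : |b ^ 2| ≤ M ^ 2 := by
      rw [abs_pow]
      exact pow_le_pow_left₀ (abs_nonneg _) hb' 2
    have e3 : |a * e| ≤ M ^ 2 := by
      rw [abs_mul, sq]
      exact mul_le_mul ha' he' (abs_nonneg _) hM0
    calc |a * n + b ^ 2 - a * e| ≤ |a * n + b ^ 2| + |a * e| := abs_sub _ _
      _ ≤ |a * n| + |b ^ 2| + |a * e| := by linarith [abs_add_le (a * n) (b ^ 2)]
      _ ≤ _ := by linarith
  have hP : (1 : ℤ) ≤ (N : ℤ) ^ (2 * C + 3) := one_le_pow₀ (by exact_mod_cast hN1)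
  have h2 : M * N ^ 3 + M ^ 2 + M ^ 2 ≤ (N : ℤ) ^ (2 * C + 4) := by
    have hN1' : (1 : ℤ) ≤ N := by exact_mod_cast hN1
    have f1 : M * (N : ℤ) ^ 3 ≤ C * (N : ℤ) ^ (2 * C + 3) := by
      rw [hM, mul_assoc, ← pow_add]
      exact mul_le_mul_of_nonneg_left (pow_le_pow_right₀ hN1' (by omega)) (by positivity)
    have f2 : M ^ 2 ≤ C ^ 2 * (N : ℤ) ^ (2 * C + 3) := by
      rw [hM, mul_pow, ← pow_mul]
      exact mul_le_mul_of_nonneg_left (pow_le_pow_right₀ hN1' (by omega)) (by positivity)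
    have f3 : ((3 * C ^ 2 + 3 * C + 1 : ℕ) : ℤ) ≤ N := by exact_mod_cast hN
    push_cast at f3
    calc M * (N : ℤ) ^ 3 + M ^ 2 + M ^ 2 ≤ (C + 2 * C ^ 2) * (N : ℤ) ^ (2 * C + 3) := by linarith
      _ ≤ N * (N : ℤ) ^ (2 * C + 3) := mul_le_mul_of_nonneg_right (by nlinarith [sq_nonneg (C : ℤ), Int.natCast_nonneg C]) (by positivity)
      _ = (N : ℤ) ^ (2 * C + 4) := by rw [show 2 * C + 4 = (2 * C + 3) + 1 by ring, pow_succ (N : ℤ) (2 * C + 3), mul_comm]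
  have h3 := h1.trans h2
  have h4 : (((a * n + b ^ 2 - a * e).natAbs : ℕ) : ℤ) ≤ ((N ^ (2 * C + 4) : ℕ) : ℤ) := by
    rw [Int.natCast_natAbs]
    push_cast
    exact h3
  exact_mod_cast h4

/-- if `p q ≥ m^τ` then `k ≤ N^(1-τ)` -/
lemma k_le {τ : ℝ} {k p q m N : ℕ} (hτ : τ ≤ 1) (hm : 1 ≤ m) (hmN : m ≤ N) (h : m = k * p * q)
    (hpq : (m : ℝ) ^ τ ≤ ((p * q : ℕ) : ℝ)) : k ≤ ⌊(N : ℝ) ^ (1 - τ)⌋₊ := by
  have hm0 : (0 : ℝ) < m := by exact_mod_cast hm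
  have hmτ : 0 < (m : ℝ) ^ τ := Real.rpow_pos_of_pos hm0 _
  have hw : 0 < ((p * q : ℕ) : ℝ) := hmτ.trans_le hpq
  apply Nat.le_floor
  have h1 : (k : ℝ) * ((p * q : ℕ) : ℝ) = m := by
    rw [h]
    push_cast
    ring
  have h2 : (k : ℝ) = m / ((p * q : ℕ) : ℝ) := by
    rw [eq_div_iff hw.ne', h1]
  rw [h2]
  calc (m : ℝ) / ((p * q : ℕ) : ℝ) ≤ m / (m : ℝ) ^ τ := div_le_div_of_nonneg_left hm0.le hmτ hpq
    _ = (m : ℝ) ^ (1 - τ) := by rw [Real.rpow_sub hm0, Real.rpow_one]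
    _ ≤ (N : ℝ) ^ (1 - τ) := Real.rpow_le_rpow hm0.le (by exact_mod_cast hmN) (by linarith)

/-- **Main tool.** A function `g` of the class `Bil` has values in a set with `O(X^θ)` elements up to `X` for at most
`N^(1 - δ)` of the `m ≤ N` with two primes `p`, `q` as in `Two τ`, if `θ < τ`. -/
theorem few {g : ℕ → ℕ} (hg : Bil g) {θ τ : ℝ} (h0 : 0 ≤ θ) (hθτ : θ < τ) (hτ : τ ≤ 1) (K : ℝ) :
    ∃ δ : ℝ, 0 < δ ∧ ∃ N₀ : ℕ, ∀ W : Set ℕ,
      (∀ X : ℕ, 1 ≤ X → (((Icc 1 X).filter (fun v => v ∈ W)).card : ℝ) ≤ K * (X : ℝ) ^ θ) → ∀ N : ℕ, N₀ ≤ N →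
        (((Icc 1 N).filter (fun m => Two τ m ∧ g m ∈ W)).card : ℝ) ≤ (N : ℝ) ^ (1 - δ) := by
  obtain ⟨C, a, b, e, hform⟩ := hg.form
  obtain ⟨δ, hδ⟩ : ∃ δ, δ = (τ - θ) / 2 := ⟨_, rfl⟩
  have hδ0 : 0 < δ := by rw [hδ]; linarith
  have hδ1 : δ ≤ 1 / 2 := by rw [hδ]; linarith
  obtain ⟨B, hB⟩ : ∃ B : ℝ, B = ((2 * C + 4 : ℕ) : ℝ) := ⟨_, rfl⟩
  have hB0 : 0 < B := by rw [hB]; positivity
  obtain ⟨ε₁, hε₁⟩ : ∃ ε₁, ε₁ = δ / 4 := ⟨_, rfl⟩
  have hε₁0 : 0 < ε₁ := by rw [hε₁]; linarith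
  have hε₁1 : ε₁ ≤ 1 := by rw [hε₁]; linarith
  obtain ⟨ε₂, hε₂⟩ : ∃ ε₂, ε₂ = δ / 4 / B := ⟨_, rfl⟩
  have hε₂0 : 0 < ε₂ := by rw [hε₂]; positivity
  obtain ⟨C₁, hC₁⟩ := hg.growth ε₁ hε₁0
  obtain ⟨C₂, hC₂1, hC₂⟩ := Pool.Agent.H373R2.T4.DivB.div_bound hε₂0
  obtain ⟨G, hG⟩ : ∃ G : ℝ, G = |C₁| + 1 := ⟨_, rfl⟩
  have hG1 : 1 ≤ G := by rw [hG]; linarith [abs_nonneg C₁]
  obtain ⟨M, hM⟩ : ∃ M : ℝ, M = 2 * C₂ * (|K| * (2 * G) ^ θ) := ⟨_, rfl⟩
  have hM0 : 0 ≤ M := by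
    rw [hM]
    have := abs_nonneg K
    positivity
  -- large N
  have ev1 : ∀ᶠ N : ℕ in Filter.atTop, M ≤ (N : ℝ) ^ (δ / 2) :=
    ((tendsto_rpow_atTop (show 0 < δ / 2 by linarith)).comp tendsto_natCast_atTop_atTop).eventually
      (Filter.eventually_ge_atTop M)
  have ev2 : ∀ᶠ N : ℕ in Filter.atTop, 2 * G ≤ (N : ℝ) :=
    tendsto_natCast_atTop_atTop.eventually (Filter.eventually_ge_atTop (2 * G))
  obtain ⟨N₀, hN₀⟩ := Filter.eventually_atTop.1 ((ev1.and ev2).and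
    (Filter.eventually_ge_atTop (3 * C ^ 2 + 3 * C + 1)))
  refine ⟨δ, hδ0, N₀, fun W hW N hN => ?_⟩
  obtain ⟨⟨hN1, hN2⟩, hN3⟩ := hN₀ N hN
  have hNn : 1 ≤ N := by omega
  have hN0 : (1 : ℝ) ≤ N := by exact_mod_cast hNn
  have hNpos : (0 : ℝ) < N := by linarith
  obtain ⟨X, hX⟩ : ∃ X : ℕ, X = ⌊G * (N : ℝ) ^ (1 + ε₁)⌋₊ := ⟨_, rfl⟩
  have hNe : (1 : ℝ) ≤ (N : ℝ) ^ (1 + ε₁) := Real.one_le_rpow hN0 (by linarith)
  have hXr : (X : ℝ) ≤ G * (N : ℝ) ^ (1 + ε₁) := by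
    rw [hX]
    exact Nat.floor_le (by positivity)
  have hX1 : 1 ≤ X := by
    rw [hX]
    exact Nat.le_floor (by push_cast; nlinarith)
  have hX3 : X ≤ N ^ 3 := by
    have h1 : (X : ℝ) ≤ (N : ℝ) ^ 3 := by
      calc (X : ℝ) ≤ G * (N : ℝ) ^ (1 + ε₁) := hXr
        _ ≤ N * (N : ℝ) ^ (2 : ℝ) := by
            apply mul_le_mul (by linarith) (Real.rpow_le_rpow_of_exponent_le hN0 (by linarith)) (by positivity) hNpos.le
        _ = (N : ℝ) ^ 3 := by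
            rw [show (2 : ℝ) = ((2 : ℕ) : ℝ) by norm_num, Real.rpow_natCast]
            ring
    exact_mod_cast h1
  obtain ⟨Y, hY⟩ : ∃ Y : ℕ, Y = ⌊(N : ℝ) ^ (1 - τ)⌋₊ := ⟨_, rfl⟩
  have hYr : (Y : ℝ) ≤ (N : ℝ) ^ (1 - τ) := by
    rw [hY]
    exact Nat.floor_le (by positivity)
  obtain ⟨F, hF⟩ : ∃ F : ℝ, F = 2 * (C₂ * (N : ℝ) ^ (δ / 4)) := ⟨_, rfl⟩
  -- the sets
  obtain ⟨T, hT⟩ : ∃ T : ℕ → ℕ → Finset ℕ, T = fun k n => (Icc 1 N).filter (fun m => g m = n ∧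
    ∃ p q : ℕ, p.Prime ∧ q.Prime ∧ p ≠ q ∧ ¬ p ∣ k ∧ ¬ q ∣ k ∧ m = k * p * q) := ⟨_, rfl⟩
  have hsub : (Icc 1 N).filter (fun m => Two τ m ∧ g m ∈ W) ⊆
      ((Icc 1 Y).filter (fun k => 2 ≤ k)).biUnion fun k => ((Icc 1 X).filter (fun v => v ∈ W)).biUnion fun n => T k n := by
    intro m hm
    rw [mem_filter, mem_Icc] at hm
    obtain ⟨⟨hm1, hmN⟩, ⟨k, p, q, hk, hp, hq, hpq, hpk, hqk, hmk, hlarge⟩, hgW⟩ := hm
    have hkY := k_le hτ hm1 hmN hmk hlarge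
    rw [← hY] at hkY
    rw [mem_biUnion]
    refine ⟨k, by rw [mem_filter, mem_Icc]; omega, ?_⟩
    rw [mem_biUnion]
    have hpos := ((hform k hk).2.2.2.2 p q hp hq hpq hpk hqk).2.1
    rw [← hmk] at hpos
    refine ⟨g m, ?_, ?_⟩
    · rw [mem_filter, mem_Icc]
      refine ⟨⟨hpos, ?_⟩, hgW⟩
      rw [hX]
      apply Nat.le_floor
      have hm0 : (1 : ℝ) ≤ m := by exact_mod_cast hm1
      calc (g m : ℝ) ≤ C₁ * (m : ℝ) ^ (1 + ε₁) := hC₁ m hm1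
        _ ≤ |C₁| * (m : ℝ) ^ (1 + ε₁) := mul_le_mul_of_nonneg_right (le_abs_self _) (by positivity)
        _ ≤ |C₁| * (N : ℝ) ^ (1 + ε₁) := mul_le_mul_of_nonneg_left
            (Real.rpow_le_rpow (by linarith) (by exact_mod_cast hmN) (by linarith)) (abs_nonneg _)
        _ ≤ G * (N : ℝ) ^ (1 + ε₁) := mul_le_mul_of_nonneg_right (by rw [hG]; linarith) (by positivity)
    · rw [hT, mem_filter, mem_Icc]
      exact ⟨⟨hm1, hmN⟩, rfl, p, q, hp, hq, hpq, hpk, hqk, hmk⟩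
  -- the fibres
  have hfib : ∀ k ∈ (Icc 1 Y).filter (fun k => 2 ≤ k), ∀ n ∈ (Icc 1 X).filter (fun v => v ∈ W),
      ((T k n).card : ℝ) ≤ F := by
    intro k hk n hn
    rw [mem_filter, mem_Icc] at hk hn
    obtain ⟨⟨-, hkY⟩, hk2⟩ := hk
    obtain ⟨h1, h2, h3, h4, h5⟩ := hform k hk2
    rcases (T k n).eq_empty_or_nonempty with he | he
    · rw [he, hF]
      simp only [card_empty, Nat.cast_zero]
      positivity
    · have hkN : k ≤ N := by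
        obtain ⟨m, hm⟩ := he
        rw [hT, mem_filter, mem_Icc] at hm
        obtain ⟨⟨hm1, hmN⟩, -, p, q, hp, hq, -, -, -, hmk⟩ := hm
        have : k ∣ m := ⟨p * q, by rw [hmk, mul_assoc]⟩
        exact (Nat.le_of_dvd (by omega) this).trans hmN
      have h6 := fib (n := n) h1 h5 (T k n) (fun m hm => by
        rw [hT, mem_filter] at hm
        exact hm.2)
      obtain ⟨R, hR⟩ : ∃ R : ℕ, R = (a k * n + b k ^ 2 - a k * e k).natAbs := ⟨_, rfl⟩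
      rw [← hR] at h6
      have h7 : R ≤ N ^ (2 * C + 4) := by
        rw [hR]
        exact res_le h2 h3 h4 hkN (hn.1.2.trans hX3) hN3
      have h8 : (R.divisors.card : ℝ) ≤ C₂ * (N : ℝ) ^ (δ / 4) := by
        rcases Nat.eq_zero_or_pos R with h9 | h9
        · rw [h9]
          simp only [Nat.divisors_zero, card_empty, Nat.cast_zero]
          positivity
        · calc (R.divisors.card : ℝ) ≤ C₂ * (R : ℝ) ^ ε₂ := hC₂ R (by omega)
            _ ≤ C₂ * (((N : ℝ) ^ B)) ^ ε₂ := by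
                apply mul_le_mul_of_nonneg_left _ (by linarith)
                apply Real.rpow_le_rpow (Nat.cast_nonneg _) _ hε₂0.le
                rw [hB, Real.rpow_natCast]
                exact_mod_cast h7
            _ = C₂ * (N : ℝ) ^ (δ / 4) := by
                rw [← Real.rpow_mul hNpos.le, hε₂]
                congr 2
                field_simp
      have h9 : ((T k n).card : ℝ) ≤ 2 * (R.divisors.card : ℝ) := by exact_mod_cast h6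
      rw [hF]
      linarith
  have hWc := hW X hX1
  have h10 : (((Icc 1 N).filter (fun m => Two τ m ∧ g m ∈ W)).card : ℝ) ≤
      (Y : ℝ) * ((((Icc 1 X).filter (fun v => v ∈ W)).card : ℝ) * F) := by
    have c1 := (card_le_card hsub).trans card_biUnion_le
    calc (((Icc 1 N).filter (fun m => Two τ m ∧ g m ∈ W)).card : ℝ)
        ≤ ∑ k ∈ (Icc 1 Y).filter (fun k => 2 ≤ k),
          (((((Icc 1 X).filter (fun v => v ∈ W)).biUnion fun n => T k n).card : ℕ) : ℝ) := by exact_mod_cast c1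
      _ ≤ ∑ k ∈ (Icc 1 Y).filter (fun k => 2 ≤ k), (((Icc 1 X).filter (fun v => v ∈ W)).card : ℝ) * F := by
          refine sum_le_sum fun k hk => ?_
          have c2 : (((((Icc 1 X).filter (fun v => v ∈ W)).biUnion fun n => T k n).card : ℕ) : ℝ) ≤
              ∑ n ∈ (Icc 1 X).filter (fun v => v ∈ W), ((T k n).card : ℝ) := by
            exact_mod_cast card_biUnion_le
          refine c2.trans ((sum_le_sum fun n hn => hfib k hk n hn).trans ?_)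
          rw [sum_const, nsmul_eq_mul]
      _ = (((Icc 1 Y).filter (fun k => 2 ≤ k)).card : ℝ) * ((((Icc 1 X).filter (fun v => v ∈ W)).card : ℝ) * F) := by
          rw [sum_const, nsmul_eq_mul]
      _ ≤ (Y : ℝ) * ((((Icc 1 X).filter (fun v => v ∈ W)).card : ℝ) * F) := by
          apply mul_le_mul_of_nonneg_right
          · have c3 : ((Icc 1 Y).filter (fun k => 2 ≤ k)).card ≤ Y := by
              refine (card_filter_le _ _).trans ?_
              rw [Nat.card_Icc]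
              omega
            exact_mod_cast c3
          · rw [hF]
            positivity
  have h11 : (X : ℝ) ^ θ ≤ (2 * G) ^ θ * (N : ℝ) ^ (θ + δ / 4) := by
    calc (X : ℝ) ^ θ ≤ (G * (N : ℝ) ^ (1 + ε₁)) ^ θ := Real.rpow_le_rpow (Nat.cast_nonneg _) hXr h0
      _ = G ^ θ * (N : ℝ) ^ ((1 + ε₁) * θ) := by
          rw [Real.mul_rpow (by linarith) (by positivity), ← Real.rpow_mul hNpos.le]
      _ ≤ (2 * G) ^ θ * (N : ℝ) ^ (θ + δ / 4) := by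
          apply mul_le_mul (Real.rpow_le_rpow (by linarith) (by linarith) h0)
            (Real.rpow_le_rpow_of_exponent_le hN0 (by rw [hε₁]; nlinarith)) (by positivity) (by positivity)
  calc (((Icc 1 N).filter (fun m => Two τ m ∧ g m ∈ W)).card : ℝ)
      ≤ (Y : ℝ) * ((((Icc 1 X).filter (fun v => v ∈ W)).card : ℝ) * F) := h10
    _ ≤ (N : ℝ) ^ (1 - τ) * ((|K| * ((2 * G) ^ θ * (N : ℝ) ^ (θ + δ / 4))) * F) := by
        have hF0 : 0 ≤ F := by rw [hF]; positivity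
        apply mul_le_mul hYr _ (by positivity) (by positivity)
        apply mul_le_mul_of_nonneg_right _ hF0
        refine hWc.trans ((mul_le_mul_of_nonneg_right (le_abs_self K) (by positivity)).trans ?_)
        exact mul_le_mul_of_nonneg_left h11 (abs_nonneg _)
    _ = M * ((N : ℝ) ^ (1 - τ) * (N : ℝ) ^ (θ + δ / 4) * (N : ℝ) ^ (δ / 4)) := by
        rw [hF, hM]
        ring
    _ = M * (N : ℝ) ^ (1 - 3 * δ / 2) := by
        rw [← Real.rpow_add hNpos, ← Real.rpow_add hNpos]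
        congr 2
        rw [hδ]
        ring
    _ ≤ (N : ℝ) ^ (δ / 2) * (N : ℝ) ^ (1 - 3 * δ / 2) := mul_le_mul_of_nonneg_right hN1 (by positivity)
    _ = (N : ℝ) ^ (1 - δ) := by
        rw [← Real.rpow_add hNpos]
        congr 1
        ring

end Run7.h527.TP
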