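import Pool.Agent.Run7.h527.TP.A

set_option autoImplicit false

/-! Windows around the values `G (g m)` of functions which are bilinear in two large primes (helper527). The statements
have the form of those of `Pool.Agent.N733.TG.K` (starting files), which are about multiplicative functions. -/

namespace Run7.h527.TP

open Finset Classical
open Pool.Agent.N733.TG (Expanding NearG nearG_count)

/-- **Windows.** If `S` has `O_ε (X ^ (s + ε))` elements of height at most `X`, then for all `m ≤ N` with `Two τ m` but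
`N^(1 - δ)` no element of `S` has a height within `g(m)^κ` of `G (g m)`; here `d s + κ < τ`. -/
theorem windows {T : Type*} (S : Set T) (h : T → ℝ) {g : ℕ → ℕ} (hg : Bil g) {G : ℕ → ℝ} {d : ℝ}
    (hG : Expanding G d) {s κ τ : ℝ} (hs : 0 ≤ s) (hκ : 0 ≤ κ) (h1 : d * s + κ < τ) (hτ : τ ≤ 1)
    (hS : ∀ ε : ℝ, 0 < ε → ∃ C : ℝ, ∀ X : ℝ, 1 ≤ X →
      {t | t ∈ S ∧ h t ≤ X}.Finite ∧ ({t | t ∈ S ∧ h t ≤ X}.ncard : ℝ) ≤ C * X ^ (s + ε)) :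
    ∃ δ : ℝ, 0 < δ ∧ ∃ N₀ : ℕ, ∀ N : ℕ, N₀ ≤ N →
      ({m : ℕ | 1 ≤ m ∧ m ≤ N ∧ Two τ m ∧ ∃ t ∈ S, |h t - G (g m)| ≤ (g m : ℝ) ^ κ}.ncard : ℝ) ≤ (N : ℝ) ^ (1 - δ) := by
  have hd := hG.one_le
  obtain ⟨ε, hε⟩ : ∃ ε, ε = (τ - d * s - κ) / (2 * d) := ⟨_, rfl⟩
  have hε0 : 0 < ε := by
    rw [hε]
    apply div_pos (by linarith) (by linarith)
  have hεd : d * ε = (τ - d * s - κ) / 2 := by
    rw [hε]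
    field_simp
  have hds : 0 ≤ d * s := by positivity
  obtain ⟨K, hK⟩ := nearG_count S h hG (s := s + ε) (κ := κ) (by linarith) hκ (by linarith) (hS ε hε0)
  have h2 : d * (s + ε) + κ < τ := by
    rw [mul_add, hεd]
    linarith
  obtain ⟨δ, hδ, N₀, hN₀⟩ := few hg (θ := d * (s + ε) + κ) (by positivity) h2 hτ K
  refine ⟨δ, hδ, N₀, fun N hN => ?_⟩
  have h3 := hN₀ (NearG S h G κ) hK N hN
  refine le_trans (le_of_eq ?_) h3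
  congr 1
  rw [← Set.ncard_coe_finset]
  congr 1
  ext m
  simp only [coe_filter, mem_Icc, Set.mem_ofPred_eq, NearG]
  tauto

/-- the case of a set of natural numbers -/
theorem win_nat (P : Set ℕ) {g : ℕ → ℕ} (hg : Bil g) {G : ℕ → ℝ} {d : ℝ}
    (hG : Expanding G d) {s κ τ : ℝ} (hs : 0 ≤ s) (hκ : 0 ≤ κ) (h1 : d * s + κ < τ) (hτ : τ ≤ 1)
    (hP : ∀ ε : ℝ, 0 < ε → ∃ C : ℝ, ∀ X : ℕ, 1 ≤ X →
      (((Ioc 0 X).filter (fun t => t ∈ P)).card : ℝ) ≤ C * (X : ℝ) ^ (s + ε)) :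
    ∃ δ : ℝ, 0 < δ ∧ ∃ N₀ : ℕ, ∀ N : ℕ, N₀ ≤ N →
      ({m : ℕ | 1 ≤ m ∧ m ≤ N ∧ Two τ m ∧ ∃ n : ℕ, (n = 0 ∨ n ∈ P) ∧ |(n : ℝ) - G (g m)| ≤ (g m : ℝ) ^ κ}.ncard : ℝ) ≤
        (N : ℝ) ^ (1 - δ) := by
  obtain ⟨δ, hδ, N₀, hN₀⟩ := windows {t : ℕ | t = 0 ∨ t ∈ P} (fun t : ℕ => (t : ℝ)) hg hG hs hκ h1 hτ (by
    intro ε hε
    obtain ⟨C, hC⟩ := hP ε hε
    refine ⟨|C| + 1, fun X hX => ?_⟩
    have hX1 : 1 ≤ ⌊X⌋₊ := Nat.le_floor (by exact_mod_cast hX)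
    have hsub : {t : ℕ | t ∈ {t : ℕ | t = 0 ∨ t ∈ P} ∧ (t : ℝ) ≤ X} ⊆
        (((Ioc 0 ⌊X⌋₊).filter (fun t => t ∈ P) ∪ {0} : Finset ℕ) : Set ℕ) := by
      rintro t ⟨ht, htX⟩
      rw [mem_coe, mem_union, mem_filter, mem_Ioc, mem_singleton]
      rcases Nat.eq_zero_or_pos t with h0 | h0
      · right; exact h0
      · left
        refine ⟨⟨h0, Nat.le_floor htX⟩, ?_⟩
        rcases ht with h | h
        · omega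
        · exact h
    refine ⟨(finite_toSet _).subset hsub, ?_⟩
    have h2 := Set.ncard_le_ncard hsub (finite_toSet _)
    rw [Set.ncard_coe_finset] at h2
    have h3 : ((Ioc 0 ⌊X⌋₊).filter (fun t => t ∈ P) ∪ {0} : Finset ℕ).card ≤
        ((Ioc 0 ⌊X⌋₊).filter (fun t => t ∈ P)).card + 1 := (card_union_le _ _).trans (by simp)
    have h4 : (({t : ℕ | t ∈ {t : ℕ | t = 0 ∨ t ∈ P} ∧ (t : ℝ) ≤ X}.ncard : ℕ) : ℝ) ≤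
        (((Ioc 0 ⌊X⌋₊).filter (fun t => t ∈ P)).card : ℝ) + 1 := by exact_mod_cast h2.trans h3
    have h5 : (1 : ℝ) ≤ X ^ (s + ε) := Real.one_le_rpow hX (by linarith)
    have h6 : ((⌊X⌋₊ : ℕ) : ℝ) ^ (s + ε) ≤ X ^ (s + ε) :=
      Real.rpow_le_rpow (Nat.cast_nonneg _) (Nat.floor_le (by linarith)) (by linarith)
    calc _ ≤ (((Ioc 0 ⌊X⌋₊).filter (fun t => t ∈ P)).card : ℝ) + 1 := h4
      _ ≤ C * ((⌊X⌋₊ : ℕ) : ℝ) ^ (s + ε) + 1 := by linarith [hC _ hX1]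
      _ ≤ |C| * X ^ (s + ε) + 1 * X ^ (s + ε) := by
        have h7 : C * ((⌊X⌋₊ : ℕ) : ℝ) ^ (s + ε) ≤ |C| * X ^ (s + ε) :=
          (mul_le_mul_of_nonneg_right (le_abs_self _) (by positivity)).trans
            (mul_le_mul_of_nonneg_left h6 (abs_nonneg _))
        linarith
      _ = (|C| + 1) * X ^ (s + ε) := by ring)
  exact ⟨δ, hδ, N₀, fun N hN => hN₀ N hN⟩

/-- the same for a property: every `t` with `Adm t` and a height near `G (g m)` is good -/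
theorem good {T : Type*} (Adm Good : T → Prop) (h : T → ℝ) {g : ℕ → ℕ} (hg : Bil g) {G : ℕ → ℝ} {d : ℝ}
    (hG : Expanding G d) {s κ τ : ℝ} (hs : 0 ≤ s) (hκ : 0 ≤ κ) (h1 : d * s + κ < τ) (hτ : τ ≤ 1)
    (hS : ∀ ε : ℝ, 0 < ε → ∃ C : ℝ, ∀ X : ℝ, 1 ≤ X →
      {t | (Adm t ∧ ¬ Good t) ∧ h t ≤ X}.Finite ∧ ({t | (Adm t ∧ ¬ Good t) ∧ h t ≤ X}.ncard : ℝ) ≤ C * X ^ (s + ε)) :
    ∃ δ : ℝ, 0 < δ ∧ ∃ N₀ : ℕ, ∀ N : ℕ, N₀ ≤ N →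
      ({m : ℕ | 1 ≤ m ∧ m ≤ N ∧ Two τ m ∧ ¬ ∀ t, Adm t → |h t - G (g m)| ≤ (g m : ℝ) ^ κ → Good t}.ncard : ℝ) ≤
        (N : ℝ) ^ (1 - δ) := by
  obtain ⟨δ, hδ, N₀, hN₀⟩ := windows {t | Adm t ∧ ¬ Good t} h hg hG hs hκ h1 hτ hS
  refine ⟨δ, hδ, N₀, fun N hN => le_trans ?_ (hN₀ N hN)⟩
  have hfin : {m : ℕ | 1 ≤ m ∧ m ≤ N ∧ Two τ m ∧ ∃ t ∈ {t | Adm t ∧ ¬ Good t}, |h t - G (g m)| ≤ (g m : ℝ) ^ κ}.Finite := by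
    apply (Set.finite_Icc 1 N).subset
    intro m hm
    exact ⟨hm.1, hm.2.1⟩
  have h2 : {m : ℕ | 1 ≤ m ∧ m ≤ N ∧ Two τ m ∧ ¬ ∀ t, Adm t → |h t - G (g m)| ≤ (g m : ℝ) ^ κ → Good t} ⊆
      {m : ℕ | 1 ≤ m ∧ m ≤ N ∧ Two τ m ∧ ∃ t ∈ {t | Adm t ∧ ¬ Good t}, |h t - G (g m)| ≤ (g m : ℝ) ^ κ} := by
    rintro m ⟨h2, h3, h3', h4⟩
    push Not at h4
    obtain ⟨n, hn, h5, h6⟩ := h4
    exact ⟨h2, h3, h3', n, ⟨hn, h6⟩, h5⟩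
  exact_mod_cast Set.ncard_le_ncard h2 hfin

/-- the same for natural numbers -/
theorem good_nat (Adm Good : ℕ → Prop) {g : ℕ → ℕ} (hg : Bil g) {G : ℕ → ℝ} {d : ℝ}
    (hG : Expanding G d) {s κ τ : ℝ} (hs : 0 ≤ s) (hκ : 0 ≤ κ) (h1 : d * s + κ < τ) (hτ : τ ≤ 1)
    (hP : ∀ ε : ℝ, 0 < ε → ∃ C : ℝ, ∀ X : ℕ, 1 ≤ X →
      ({t : ℕ | 1 ≤ t ∧ t ≤ X ∧ Adm t ∧ ¬ Good t}.ncard : ℝ) ≤ C * (X : ℝ) ^ (s + ε)) :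
    ∃ δ : ℝ, 0 < δ ∧ ∃ N₀ : ℕ, ∀ N : ℕ, N₀ ≤ N →
      ({m : ℕ | 1 ≤ m ∧ m ≤ N ∧ Two τ m ∧
        ¬ ∀ n : ℕ, 1 ≤ n → Adm n → |(n : ℝ) - G (g m)| ≤ (g m : ℝ) ^ κ → Good n}.ncard : ℝ) ≤
        (N : ℝ) ^ (1 - δ) := by
  obtain ⟨δ, hδ, N₀, hN₀⟩ := win_nat {t | Adm t ∧ ¬ Good t} hg hG hs hκ h1 hτ (fun ε hε => by
    obtain ⟨C, hC⟩ := hP ε hε
    refine ⟨C, fun X hX => le_trans (le_of_eq ?_) (hC X hX)⟩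
    congr 1
    rw [← Set.ncard_coe_finset]
    congr 1
    ext t
    simp only [coe_filter, mem_Ioc, Set.mem_ofPred_eq]
    constructor
    · rintro ⟨⟨a1, a2⟩, a3⟩
      exact ⟨a1, a2, a3⟩
    · rintro ⟨a1, a2, a3⟩
      exact ⟨⟨a1, a2⟩, a3⟩)
  refine ⟨δ, hδ, N₀, fun N hN => le_trans ?_ (hN₀ N hN)⟩
  have hfin : {m : ℕ | 1 ≤ m ∧ m ≤ N ∧ Two τ m ∧ ∃ n : ℕ, (n = 0 ∨ n ∈ {t | Adm t ∧ ¬ Good t}) ∧
      |(n : ℝ) - G (g m)| ≤ (g m : ℝ) ^ κ}.Finite := by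
    apply (Set.finite_Icc 1 N).subset
    intro m hm
    exact ⟨hm.1, hm.2.1⟩
  have h2 : {m : ℕ | 1 ≤ m ∧ m ≤ N ∧ Two τ m ∧
      ¬ ∀ n : ℕ, 1 ≤ n → Adm n → |(n : ℝ) - G (g m)| ≤ (g m : ℝ) ^ κ → Good n} ⊆
      {m : ℕ | 1 ≤ m ∧ m ≤ N ∧ Two τ m ∧ ∃ n : ℕ, (n = 0 ∨ n ∈ {t | Adm t ∧ ¬ Good t}) ∧
      |(n : ℝ) - G (g m)| ≤ (g m : ℝ) ^ κ} := by
    rintro m ⟨h2, h3, h3', h4⟩
    push Not at h4
    obtain ⟨n, hn1, hn, h5, h6⟩ := h4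
    exact ⟨h2, h3, h3', n, Or.inr ⟨hn, h6⟩, h5⟩
  exact_mod_cast Set.ncard_le_ncard h2 hfin

end Run7.h527.TP
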