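import Pool.Agent.Run7.h527.TP.Ex
import Pool.Agent.Erdos456.Mertens

/-! For small `τ` nearly all integers are products `k p q` with different primes `p`, `q` and `p q ≥ m ^ τ`. -/

set_option autoImplicit false

namespace Run7.h527.TP

open Finset

lemma card_mult (N d : ℕ) : (((Ioc 0 N).filter (fun m => d ∣ m)).card : ℝ) ≤ (N : ℝ) / d ∧
    (N : ℝ) / d - 1 ≤ (((Ioc 0 N).filter (fun m => d ∣ m)).card : ℝ) := by
  rw [Nat.Ioc_filter_dvd_card_eq_div]
  refine ⟨Nat.cast_div_le, ?_⟩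
  have := Nat.lt_floor_add_one ((N : ℝ) / d)
  rw [Nat.floor_div_eq_div] at this
  linarith

/-- the second moment of the number of prime factors in a set of primes -/
lemma moment (P : Finset ℕ) (hP : ∀ p ∈ P, p.Prime) (N : ℕ) (hN : P.card ≤ N) (hL : 1 < ∑ p ∈ P, (1 : ℝ) / p) :
    (((Ioc 0 N).filter (fun m => (P.filter (fun p => p ∣ m)).card ≤ 1)).card : ℝ) * ((∑ p ∈ P, (1 : ℝ) / p) - 1) ^ 2 ≤
      3 * N * ∑ p ∈ P, (1 : ℝ) / p := by
  classical
  obtain ⟨L, hLd⟩ : ∃ L : ℝ, L = ∑ p ∈ P, (1 : ℝ) / p := ⟨_, rfl⟩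
  obtain ⟨w, hw⟩ : ∃ w : ℕ → ℝ, w = fun m => ∑ p ∈ P, if p ∣ m then (1 : ℝ) else 0 := ⟨_, rfl⟩
  rw [← hLd] at hL ⊢
  have hwc : ∀ m, w m = ((P.filter (fun p => p ∣ m)).card : ℝ) := by
    intro m
    rw [hw, Finset.card_filter]
    push_cast
    rfl
  have hNr : (P.card : ℝ) ≤ N := by exact_mod_cast hN
  have h1 : (N : ℝ) * L - N ≤ ∑ m ∈ Ioc 0 N, w m := by
    rw [hw]
    rw [Finset.sum_comm]
    have h3 : ∀ p ∈ P, (N : ℝ) / p - 1 ≤ ∑ m ∈ Ioc 0 N, if p ∣ m then (1 : ℝ) else 0 := by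
      intro p _
      rw [← Finset.sum_filter, Finset.sum_const, nsmul_eq_mul, mul_one]
      exact (card_mult N p).2
    refine le_trans ?_ (Finset.sum_le_sum h3)
    rw [Finset.sum_sub_distrib, Finset.sum_const, nsmul_eq_mul, mul_one, hLd, Finset.mul_sum]
    have h4 : ∑ p ∈ P, (N : ℝ) * (1 / p) = ∑ p ∈ P, (N : ℝ) / p := Finset.sum_congr rfl fun p _ => mul_one_div _ _
    rw [h4]
    linarith
  have h2 : ∑ m ∈ Ioc 0 N, w m ^ 2 ≤ N * L ^ 2 + N * L := by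
    have e : ∀ m, w m ^ 2 = ∑ p ∈ P, ∑ q ∈ P, if p ∣ m ∧ q ∣ m then (1 : ℝ) else 0 := by
      intro m
      rw [sq, hw, Finset.sum_mul_sum]
      refine sum_congr rfl fun p _ => sum_congr rfl fun q _ => ?_
      by_cases h : p ∣ m <;> by_cases h' : q ∣ m <;> simp [h, h']
    simp only [e]
    rw [Finset.sum_comm]
    have h3 : ∀ p ∈ P, ∑ m ∈ Ioc 0 N, ∑ q ∈ P, (if p ∣ m ∧ q ∣ m then (1 : ℝ) else 0) ≤
        (N : ℝ) * (1 / p) * L + N * (1 / p) := by
      intro p hp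
      rw [Finset.sum_comm]
      have h4 : ∀ q ∈ P, ∑ m ∈ Ioc 0 N, (if p ∣ m ∧ q ∣ m then (1 : ℝ) else 0) ≤
          (N : ℝ) * (1 / p) * (1 / q) + if q = p then (N : ℝ) * (1 / p) else 0 := by
        intro q hq
        rw [← Finset.sum_filter, Finset.sum_const, nsmul_eq_mul, mul_one]
        have hp0 : (0 : ℝ) < p := by exact_mod_cast (hP p hp).pos
        have hq0 : (0 : ℝ) < q := by exact_mod_cast (hP q hq).pos
        split_ifs with h
        · have h5 : (((Ioc 0 N).filter (fun m => p ∣ m ∧ q ∣ m)).card : ℝ) ≤ (N : ℝ) / p := by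
            refine le_trans ?_ (card_mult N p).1
            apply Nat.cast_le.2
            apply card_le_card
            intro m hm
            rw [mem_filter] at hm ⊢
            exact ⟨hm.1, hm.2.1⟩
          have h6 : 0 ≤ (N : ℝ) * (1 / p) * (1 / q) := by positivity
          rw [mul_one_div] at h6 ⊢
          rw [div_eq_mul_one_div] at h5
          linarith
        · have hcop : Nat.Coprime p q := (Nat.coprime_primes (hP p hp) (hP q hq)).2 fun h' => h h'.symm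
          have h5 : (((Ioc 0 N).filter (fun m => p ∣ m ∧ q ∣ m)).card : ℝ) ≤ (N : ℝ) / ((p * q : ℕ) : ℝ) := by
            refine le_trans ?_ (card_mult N (p * q)).1
            apply Nat.cast_le.2
            apply card_le_card
            intro m hm
            rw [mem_filter] at hm ⊢
            exact ⟨hm.1, hcop.mul_dvd_of_dvd_of_dvd hm.2.1 hm.2.2⟩
          rw [add_zero]
          refine h5.trans (le_of_eq ?_)
          push_cast
          field_simp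
      refine (sum_le_sum h4).trans ?_
      rw [sum_add_distrib, ← mul_sum, ← hLd, Finset.sum_ite_eq' P p, if_pos hp]
    refine (sum_le_sum h3).trans (le_of_eq ?_)
    rw [sum_add_distrib, ← sum_mul, ← mul_sum, ← hLd]
    ring
  have h3 : ∑ m ∈ Ioc 0 N, (w m - L) ^ 2 ≤ 3 * N * L := by
    have e : ∑ m ∈ Ioc 0 N, (w m - L) ^ 2 = ∑ m ∈ Ioc 0 N, w m ^ 2 - 2 * L * ∑ m ∈ Ioc 0 N, w m + N * L ^ 2 := by
      rw [mul_sum, ← sum_sub_distrib]
      have : (N : ℝ) * L ^ 2 = ∑ m ∈ Ioc 0 N, L ^ 2 := by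
        rw [sum_const, Nat.card_Ioc, nsmul_eq_mul, Nat.sub_zero]
      rw [this, ← sum_add_distrib]
      exact sum_congr rfl fun m _ => by ring
    rw [e]
    nlinarith
  have h4 : (((Ioc 0 N).filter (fun m => (P.filter (fun p => p ∣ m)).card ≤ 1)).card : ℝ) * (L - 1) ^ 2 ≤
      ∑ m ∈ Ioc 0 N, (w m - L) ^ 2 := by
    calc (((Ioc 0 N).filter (fun m => (P.filter (fun p => p ∣ m)).card ≤ 1)).card : ℝ) * (L - 1) ^ 2
        = ∑ m ∈ (Ioc 0 N).filter (fun m => (P.filter (fun p => p ∣ m)).card ≤ 1), (L - 1) ^ 2 := by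
          rw [sum_const, nsmul_eq_mul]
      _ ≤ ∑ m ∈ (Ioc 0 N).filter (fun m => (P.filter (fun p => p ∣ m)).card ≤ 1), (w m - L) ^ 2 := by
          apply sum_le_sum
          intro m hm
          rw [mem_filter] at hm
          have h5 : w m ≤ 1 := by
            rw [hwc]
            exact_mod_cast hm.2
          nlinarith
      _ ≤ _ := sum_le_sum_of_subset_of_nonneg (filter_subset _ _) fun m _ _ => sq_nonneg _
  exact h4.trans h3

/-- **For small `τ` nearly all integers have two prime factors with a product of size at least `m ^ τ`.** -/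
theorem density (ε : ℝ) (hε : 0 < ε) : ∃ τ : ℝ, 0 < τ ∧ τ ≤ 1 ∧ ∃ N₀ : ℕ, ∀ N : ℕ, N₀ ≤ N →
    ({m : ℕ | 1 ≤ m ∧ m ≤ N ∧ ¬ Two τ m}.ncard : ℝ) ≤ ε * N := by
  classical
  obtain ⟨C, hC⟩ := Pool.Agent.Erdos456.Mert.mertens_inv
  have hC0 : 0 ≤ C := (abs_nonneg _).trans (hC 3 le_rfl)
  obtain ⟨Λ, hΛ⟩ : ∃ Λ : ℝ, Λ = 24 / ε + 2 := ⟨_, rfl⟩
  have hΛ2 : 2 ≤ Λ := by
    rw [hΛ]
    have : 0 < 24 / ε := by positivity
    linarith
  obtain ⟨t, ht⟩ : ∃ t : ℝ, t = Real.exp (-(Λ + 2 * C)) / 16 := ⟨_, rfl⟩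
  have ht0 : 0 < t := by
    rw [ht]
    positivity
  have ht1 : t ≤ 1 / 16 := by
    rw [ht]
    have : Real.exp (-(Λ + 2 * C)) ≤ 1 := Real.exp_le_one_iff.2 (by linarith)
    linarith
  have hev : ∀ᶠ N : ℕ in Filter.atTop, (3 + 4 / ε + 1 ≤ (N : ℝ) ^ t) ∧ ((N : ℝ) ^ ((1 : ℝ) / 16) + 1 ≤ (N : ℝ) ^ ((1 : ℝ) / 8)) ∧
      (4 / ε ≤ (N : ℝ) ^ ((1 : ℝ) / 2)) ∧ (2 ≤ (N : ℝ) ^ ((1 : ℝ) / 4)) ∧ 3 ≤ (N : ℝ) ^ ((1 : ℝ) / 16) := by
    have hT : ∀ s : ℝ, 0 < s → Filter.Tendsto (fun N : ℕ => (N : ℝ) ^ s) Filter.atTop Filter.atTop := fun s hs =>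
      (tendsto_rpow_atTop hs).comp tendsto_natCast_atTop_atTop
    filter_upwards [(hT t ht0).eventually_ge_atTop (3 + 4 / ε + 1), (hT (1 / 2) (by norm_num)).eventually_ge_atTop (4 / ε),
      (hT (1 / 4) (by norm_num)).eventually_ge_atTop 2, (hT (1 / 16) (by norm_num)).eventually_ge_atTop 3] with N h1 h3 h4 h5
    refine ⟨h1, ?_, h3, h4, h5⟩
    have e : (N : ℝ) ^ ((1 : ℝ) / 8) = (N : ℝ) ^ ((1 : ℝ) / 16) * (N : ℝ) ^ ((1 : ℝ) / 16) := by
      rw [← Real.rpow_add_of_nonneg (Nat.cast_nonneg _) (by norm_num) (by norm_num)]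
      norm_num
    rw [e]
    nlinarith
  obtain ⟨N₀, hN₀⟩ := Filter.eventually_atTop.1 hev
  refine ⟨2 * t, by linarith, by linarith, max N₀ 3, fun N hN => ?_⟩
  obtain ⟨hz3, hyy, hsq, hk2, hy3⟩ := hN₀ N ((le_max_left _ _).trans hN)
  have hN3 : 3 ≤ N := (le_max_right _ _).trans hN
  have hNr : (3 : ℝ) ≤ N := by exact_mod_cast hN3
  have hN0 : (0 : ℝ) < N := by linarith
  have h4ε : 0 < 4 / ε := by positivity
  obtain ⟨z, hz⟩ : ∃ z : ℕ, z = ⌊(N : ℝ) ^ t⌋₊ := ⟨_, rfl⟩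
  obtain ⟨y, hy⟩ : ∃ y : ℕ, y = ⌊(N : ℝ) ^ ((1 : ℝ) / 8)⌋₊ := ⟨_, rfl⟩
  have hzle : (z : ℝ) ≤ (N : ℝ) ^ t := by
    rw [hz]
    exact Nat.floor_le (by positivity)
  have hzge : 3 + 4 / ε ≤ (z : ℝ) := by
    have := Nat.lt_floor_add_one ((N : ℝ) ^ t)
    rw [← hz] at this
    linarith
  have hz3' : 3 ≤ z := by
    have : (3 : ℝ) ≤ z := by linarith
    exact_mod_cast this
  have hyle : (y : ℝ) ≤ (N : ℝ) ^ ((1 : ℝ) / 8) := by
    rw [hy]
    exact Nat.floor_le (by positivity)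
  have hyge : (N : ℝ) ^ ((1 : ℝ) / 16) ≤ y := by
    have := Nat.lt_floor_add_one ((N : ℝ) ^ ((1 : ℝ) / 8))
    rw [← hy] at this
    linarith
  have hy3' : 3 ≤ y := by
    have : (3 : ℝ) ≤ y := by linarith
    exact_mod_cast this
  have hzy : z ≤ y := by
    rw [hz, hy]
    exact Nat.floor_le_floor (Real.rpow_le_rpow_of_exponent_le (by linarith) (by linarith))
  obtain ⟨P, hPd⟩ : ∃ P : Finset ℕ, P = (Ioc z y).filter Nat.Prime := ⟨_, rfl⟩
  have hP : ∀ p ∈ P, p.Prime := fun p hp => by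
    rw [hPd, mem_filter] at hp
    exact hp.2
  have hP' : ∀ p ∈ P, z < p ∧ p ≤ y := fun p hp => by
    rw [hPd, mem_filter, mem_Ioc] at hp
    exact hp.1
  -- the sum of the reciprocals
  have hL : Λ ≤ ∑ p ∈ P, (1 : ℝ) / p := by
    have h1 : ∑ p ∈ (Icc 1 y).filter Nat.Prime, (1 : ℝ) / p =
        ∑ p ∈ (Icc 1 z).filter Nat.Prime, (1 : ℝ) / p + ∑ p ∈ P, (1 : ℝ) / p := by
      rw [hPd, ← sum_union]
      · congr 1
        ext p
        simp only [mem_filter, mem_union, mem_Icc, mem_Ioc]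
        constructor
        · rintro ⟨⟨h1, h2⟩, h3⟩
          rcases Nat.lt_or_ge z p with h4 | h4
          · exact Or.inr ⟨⟨h4, h2⟩, h3⟩
          · exact Or.inl ⟨⟨h1, h4⟩, h3⟩
        · rintro (⟨⟨h1, h2⟩, h3⟩ | ⟨⟨h1, h2⟩, h3⟩)
          · exact ⟨⟨h1, h2.trans hzy⟩, h3⟩
          · exact ⟨⟨h3.one_lt.le, h2⟩, h3⟩
      · rw [Finset.disjoint_left]
        intro p h1 h2
        rw [mem_filter, mem_Icc] at h1
        rw [mem_filter, mem_Ioc] at h2
        omega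
    have h2 := abs_le.1 (hC y hy3')
    have h3 := abs_le.1 (hC z hz3')
    have hlN : 0 < Real.log N := Real.log_pos (by linarith)
    have h4 : Real.log (1 / 16) + Real.log (Real.log N) ≤ Real.log (Real.log y) := by
      rw [← Real.log_mul (by norm_num) hlN.ne', ← Real.log_rpow hN0]
      apply Real.log_le_log
      · apply Real.log_pos
        linarith
      · exact Real.log_le_log (by linarith) hyge
    have h5 : Real.log (Real.log z) ≤ Real.log t + Real.log (Real.log N) := by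
      rw [← Real.log_mul ht0.ne' hlN.ne', ← Real.log_rpow hN0]
      have hz1 : (1 : ℝ) < z := by linarith
      apply Real.log_le_log (Real.log_pos hz1)
      exact Real.log_le_log (by linarith) hzle
    have h6 : Real.log t = -(Λ + 2 * C) + Real.log (1 / 16) := by
      rw [ht, div_eq_mul_one_div, Real.log_mul (Real.exp_pos _).ne' (by norm_num), Real.log_exp]
    linarith
  have hcard : P.card ≤ N := by
    have h1 : P.card ≤ y := by
      rw [hPd]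
      refine (card_filter_le _ _).trans ?_
      rw [Nat.card_Ioc]
      omega
    have h2 : (y : ℝ) ≤ N := by
      refine hyle.trans ?_
      calc (N : ℝ) ^ ((1 : ℝ) / 8) ≤ (N : ℝ) ^ (1 : ℝ) := Real.rpow_le_rpow_of_exponent_le (by linarith) (by norm_num)
        _ = N := Real.rpow_one _
    exact h1.trans (by exact_mod_cast h2)
  obtain ⟨L, hLd⟩ : ∃ L : ℝ, L = ∑ p ∈ P, (1 : ℝ) / p := ⟨_, rfl⟩
  have hm := moment P hP N hcard (by linarith)
  rw [← hLd] at hm hL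
  obtain ⟨A, hA⟩ : ∃ A : Finset ℕ, A = (Ioc 0 N).filter (fun m => (P.filter (fun p => p ∣ m)).card ≤ 1) := ⟨_, rfl⟩
  rw [← hA] at hm
  have hAc : (A.card : ℝ) ≤ ε / 2 * N := by
    have h1 : 24 / ε ≤ L := by linarith
    have h2 : 24 ≤ L * ε := by
      rw [div_le_iff₀ hε] at h1
      exact h1
    have h3 : L ^ 2 / 4 ≤ (L - 1) ^ 2 := by nlinarith
    have h4 : (A.card : ℝ) * (L ^ 2 / 4) ≤ 3 * N * L :=
      (mul_le_mul_of_nonneg_left h3 (Nat.cast_nonneg _)).trans hm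
    have hL0 : 0 < L := by linarith
    have h5 : (A.card : ℝ) * L ≤ 12 * N := by
      have : (A.card : ℝ) * L * L ≤ 12 * N * L := by nlinarith
      exact le_of_mul_le_mul_right this hL0
    have h6 : (A.card : ℝ) * 24 ≤ 12 * N * ε := by
      calc (A.card : ℝ) * 24 ≤ (A.card : ℝ) * (L * ε) := mul_le_mul_of_nonneg_left h2 (Nat.cast_nonneg _)
        _ = (A.card : ℝ) * L * ε := by ring
        _ ≤ 12 * N * ε := mul_le_mul_of_nonneg_right h5 hε.le
    linarith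
  -- the integers divisible by a square
  obtain ⟨B, hB⟩ : ∃ B : Finset ℕ, B = P.biUnion (fun p => (Ioc 0 N).filter (fun m => p ^ 2 ∣ m)) := ⟨_, rfl⟩
  have hBc : (B.card : ℝ) ≤ ε / 4 * N := by
    have h1 : (B.card : ℝ) ≤ ∑ p ∈ P, (N : ℝ) * (((p : ℝ) ^ 2)⁻¹) := by
      have h2 : B.card ≤ ∑ p ∈ P, ((Ioc 0 N).filter (fun m => p ^ 2 ∣ m)).card := by
        rw [hB]
        exact card_biUnion_le
      have h3 : (B.card : ℝ) ≤ ∑ p ∈ P, (((Ioc 0 N).filter (fun m => p ^ 2 ∣ m)).card : ℝ) := by exact_mod_cast h2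
      refine h3.trans (sum_le_sum fun p _ => ?_)
      have h4 := (card_mult N (p ^ 2)).1
      push_cast at h4
      rw [div_eq_mul_inv] at h4
      exact h4
    have h2 : ∑ p ∈ P, (((p : ℝ) ^ 2)⁻¹) ≤ (z : ℝ)⁻¹ := by
      have h3 : ∑ p ∈ P, (((p : ℝ) ^ 2)⁻¹) ≤ ∑ p ∈ Ioc z y, (((p : ℝ) ^ 2)⁻¹) := by
        rw [hPd]
        exact sum_le_sum_of_subset_of_nonneg (filter_subset _ _) fun p _ _ => by positivity
      have h4 := sum_Ioc_inv_sq_le_sub (α := ℝ) (k := z) (n := y) (by omega) hzy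
      have h5 : (0 : ℝ) ≤ (y : ℝ)⁻¹ := by positivity
      linarith
    rw [← mul_sum] at h1
    have h3 : (z : ℝ)⁻¹ ≤ ε / 4 := by
      rw [inv_le_comm₀ (by linarith) (by positivity)]
      rw [inv_div]
      linarith
    calc (B.card : ℝ) ≤ N * ∑ p ∈ P, (((p : ℝ) ^ 2)⁻¹) := h1
      _ ≤ N * (ε / 4) := mul_le_mul_of_nonneg_left (h2.trans h3) hN0.le
      _ = ε / 4 * N := by ring
  obtain ⟨D, hD⟩ : ∃ D : Finset ℕ, D = Icc 1 ⌊(N : ℝ) ^ ((1 : ℝ) / 2)⌋₊ := ⟨_, rfl⟩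
  have hNh : (N : ℝ) ^ ((1 : ℝ) / 2) * (N : ℝ) ^ ((1 : ℝ) / 2) = N := by
    rw [← Real.rpow_add hN0]
    norm_num
  have hDc : (D.card : ℝ) ≤ ε / 4 * N := by
    rw [hD, Nat.card_Icc, Nat.add_sub_cancel]
    have h1 : ((⌊(N : ℝ) ^ ((1 : ℝ) / 2)⌋₊ : ℕ) : ℝ) ≤ (N : ℝ) ^ ((1 : ℝ) / 2) := Nat.floor_le (by positivity)
    refine h1.trans ?_
    have h2 : 4 ≤ (N : ℝ) ^ ((1 : ℝ) / 2) * ε := by
      rw [div_le_iff₀ hε] at hsq
      exact hsq
    have h3 : 0 ≤ (N : ℝ) ^ ((1 : ℝ) / 2) := by positivity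
    nlinarith
  have hsub : {m : ℕ | 1 ≤ m ∧ m ≤ N ∧ ¬ Two (2 * t) m} ⊆ ((A ∪ B ∪ D : Finset ℕ) : Set ℕ) := by
    rintro m ⟨hm1, hmN, hmT⟩
    by_contra hcon
    rw [Finset.mem_coe, mem_union, mem_union, not_or, not_or] at hcon
    obtain ⟨⟨hmA, hmB⟩, hmD⟩ := hcon
    apply hmT
    have hmI : m ∈ Ioc 0 N := mem_Ioc.2 ⟨hm1, hmN⟩
    rw [hA, mem_filter, not_and, not_le] at hmA
    obtain ⟨p, q, hp, hq, hpq⟩ := Finset.one_lt_card_iff.1 (hmA hmI)
    rw [mem_filter] at hp hq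
    have hpp := hP p hp.1
    have hqp := hP q hq.1
    have hcop : Nat.Coprime p q := (Nat.coprime_primes hpp hqp).2 hpq
    obtain ⟨k, hk⟩ := hcop.mul_dvd_of_dvd_of_dvd hp.2 hq.2
    have hnB : ∀ r ∈ P, ¬ r ^ 2 ∣ m := by
      intro r hr hrm
      apply hmB
      rw [hB, mem_biUnion]
      exact ⟨r, hr, mem_filter.2 ⟨hmI, hrm⟩⟩
    have hmbig : (N : ℝ) ^ ((1 : ℝ) / 2) < m := by
      rw [hD, mem_Icc, not_and, not_le] at hmD
      exact (Nat.floor_lt (by positivity)).1 (hmD hm1)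
    have hpy : (p : ℝ) ≤ (N : ℝ) ^ ((1 : ℝ) / 8) := le_trans (by exact_mod_cast (hP' p hp.1).2) hyle
    have hqy : (q : ℝ) ≤ (N : ℝ) ^ ((1 : ℝ) / 8) := le_trans (by exact_mod_cast (hP' q hq.1).2) hyle
    have hpz : (N : ℝ) ^ t < p := by
      have := (hP' p hp.1).1
      rw [hz] at this
      exact (Nat.floor_lt (by positivity)).1 this
    have hqz : (N : ℝ) ^ t < q := by
      have := (hP' q hq.1).1
      rw [hz] at this
      exact (Nat.floor_lt (by positivity)).1 this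
    have hp0 : (0 : ℝ) < p := by exact_mod_cast hpp.pos
    have hq0 : (0 : ℝ) < q := by exact_mod_cast hqp.pos
    refine ⟨k, p, q, ?_, hpp, hqp, hpq, ?_, ?_, ?_, ?_⟩
    · by_contra hk2'
      have hk1 : k ≤ 1 := by omega
      have h1 : m ≤ p * q := by
        rw [hk]
        calc p * q * k ≤ p * q * 1 := Nat.mul_le_mul_left _ hk1
          _ = p * q := mul_one _
      have h2 : (m : ℝ) ≤ p * q := by exact_mod_cast h1
      have h3 : (p : ℝ) * q ≤ (N : ℝ) ^ ((1 : ℝ) / 8) * (N : ℝ) ^ ((1 : ℝ) / 8) :=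
        mul_le_mul hpy hqy hq0.le (by positivity)
      have h4 : (N : ℝ) ^ ((1 : ℝ) / 8) * (N : ℝ) ^ ((1 : ℝ) / 8) ≤ (N : ℝ) ^ ((1 : ℝ) / 2) := by
        rw [← Real.rpow_add hN0]
        exact Real.rpow_le_rpow_of_exponent_le (by linarith) (by norm_num)
      linarith
    · intro h
      apply hnB p hp.1
      rw [hk, sq]
      obtain ⟨j, hj⟩ := h
      exact ⟨q * j, by rw [hj]; ring⟩
    · intro h
      apply hnB q hq.1
      rw [hk, sq]
      obtain ⟨j, hj⟩ := h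
      exact ⟨p * j, by rw [hj]; ring⟩
    · rw [hk]
      ring
    · push_cast
      have h1 : (m : ℝ) ^ (2 * t) ≤ (N : ℝ) ^ (2 * t) :=
        Real.rpow_le_rpow (Nat.cast_nonneg _) (by exact_mod_cast hmN) (by linarith)
      have h2 : (N : ℝ) ^ (2 * t) = (N : ℝ) ^ t * (N : ℝ) ^ t := by
        rw [← Real.rpow_add hN0]
        congr 1
        ring
      have h3 : (N : ℝ) ^ t * (N : ℝ) ^ t ≤ p * q := mul_le_mul hpz.le hqz.le (by positivity) hp0.le
      linarith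
  have h1 : ({m : ℕ | 1 ≤ m ∧ m ≤ N ∧ ¬ Two (2 * t) m}.ncard : ℝ) ≤ ((A ∪ B ∪ D).card : ℝ) := by
    rw [← Set.ncard_coe_finset]
    exact_mod_cast Set.ncard_le_ncard hsub (Finset.finite_toSet _)
  have h2 : ((A ∪ B ∪ D).card : ℝ) ≤ A.card + B.card + D.card := by
    have := card_union_le (A ∪ B) D
    have := card_union_le A B
    have h3 : (A ∪ B ∪ D).card ≤ A.card + B.card + D.card := by omega
    exact_mod_cast h3
  linarith

end Run7.h527.TP
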