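import Pool.Agent.Run7.h527.TP.B

set_option autoImplicit false

/-! Examples of functions which are bilinear in two large primes: the positive combinations `α m + β f(m)` for `f = σ`,
`f = φ` and for the arithmetic derivative, in particular the sum of the proper divisors and the cototient (helper527). The
arithmetic derivative and its lemmas are copied from `Run7/h527/AD/Der`. -/

namespace Run7.h527.TP

open Finset Classical

/-- `α m + β f(m)` -/
def comb (α β : ℤ) (f : ℕ → ℕ) (m : ℕ) : ℕ := (α * m + β * f m).toNat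

lemma comb_growth {f : ℕ → ℕ} (hf : ∀ ε : ℝ, 0 < ε → ∃ C : ℝ, ∀ m : ℕ, 1 ≤ m → (f m : ℝ) ≤ C * (m : ℝ) ^ (1 + ε))
    (α β : ℤ) : ∀ ε : ℝ, 0 < ε → ∃ C : ℝ, ∀ m : ℕ, 1 ≤ m → (comb α β f m : ℝ) ≤ C * (m : ℝ) ^ (1 + ε) := by
  intro ε hε
  obtain ⟨C, hC⟩ := hf ε hε
  refine ⟨|(α : ℝ)| + |(β : ℝ)| * C, fun m hm => ?_⟩
  have hm1 : (1 : ℝ) ≤ m := by exact_mod_cast hm
  have h1 : (m : ℝ) ≤ (m : ℝ) ^ (1 + ε) := by
    conv_lhs => rw [← Real.rpow_one (m : ℝ)]
    exact Real.rpow_le_rpow_of_exponent_le hm1 (by linarith)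
  have h2 : ((comb α β f m : ℕ) : ℝ) ≤ |((α * m + β * f m : ℤ) : ℝ)| := by
    have h3 : ((comb α β f m : ℕ) : ℤ) ≤ |α * m + β * f m| := by
      unfold comb
      rw [Int.toNat_eq_max]
      exact max_le (le_abs_self _) (abs_nonneg _)
    have h4 : (((comb α β f m : ℕ) : ℤ) : ℝ) ≤ ((|α * m + β * f m| : ℤ) : ℝ) := by exact_mod_cast h3
    rw [Int.cast_natCast, Int.cast_abs] at h4
    exact h4
  refine h2.trans ?_
  push_cast
  calc |(α : ℝ) * m + β * f m| ≤ |(α : ℝ) * m| + |(β : ℝ) * f m| := abs_add_le _ _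
    _ = |(α : ℝ)| * m + |(β : ℝ)| * f m := by
        rw [abs_mul, abs_mul, abs_of_nonneg (by linarith : (0 : ℝ) ≤ m),
          abs_of_nonneg (by positivity : (0 : ℝ) ≤ (f m : ℝ))]
    _ ≤ |(α : ℝ)| * (m : ℝ) ^ (1 + ε) + |(β : ℝ)| * (C * (m : ℝ) ^ (1 + ε)) :=
        add_le_add (mul_le_mul_of_nonneg_left h1 (abs_nonneg _)) (mul_le_mul_of_nonneg_left (hC m hm) (abs_nonneg _))
    _ = _ := by ring

lemma sq_growth {f : ℕ → ℕ} (hf : ∀ ε : ℝ, 0 < ε → ∃ C : ℝ, ∀ m : ℕ, 1 ≤ m → (f m : ℝ) ≤ C * (m : ℝ) ^ (1 + ε)) :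
    ∃ M : ℕ, 1 ≤ M ∧ ∀ k : ℕ, 1 ≤ k → (k : ℤ) ≤ M * k ^ 2 ∧ (f k : ℤ) ≤ M * k ^ 2 := by
  obtain ⟨C, hC⟩ := hf 1 one_pos
  obtain ⟨M, hM⟩ := exists_nat_ge (max C 1)
  have hM1 : 1 ≤ M := by exact_mod_cast (le_max_right _ _).trans hM
  refine ⟨M, hM1, fun k hk => ⟨?_, ?_⟩⟩
  · have h1 : k ≤ M * k ^ 2 := by
      calc k = 1 * k := (one_mul k).symm
        _ ≤ M * k ^ 2 := Nat.mul_le_mul hM1 (by nlinarith)
    exact_mod_cast h1
  · have h2 := hC k hk
    have h3 : (f k : ℝ) ≤ M * (k : ℝ) ^ 2 := by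
      refine h2.trans ?_
      rw [show (1 + 1 : ℝ) = ((2 : ℕ) : ℝ) by norm_num, Real.rpow_natCast]
      exact mul_le_mul_of_nonneg_right ((le_max_left _ _).trans hM) (by positivity)
    exact_mod_cast h3

lemma size {M C : ℕ} {k : ℕ} {u v : ℤ} {x y : ℤ} (hk : 2 ≤ k) (hx : 0 ≤ x) (hy : 0 ≤ y) (hxM : x ≤ M * (k : ℤ) ^ 2)
    (hyM : y ≤ M * (k : ℤ) ^ 2) (hC : (|u| + |v|) * M ≤ C) (hC2 : 2 ≤ C) : |u * x + v * y| ≤ C * (k : ℤ) ^ C := by
  have hk1 : (1 : ℤ) ≤ k := by exact_mod_cast (by omega : 1 ≤ k)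
  have hk2 : (k : ℤ) ^ 2 ≤ (k : ℤ) ^ C := pow_le_pow_right₀ hk1 hC2
  calc |u * x + v * y| ≤ |u * x| + |v * y| := abs_add_le _ _
    _ = |u| * x + |v| * y := by rw [abs_mul, abs_mul, abs_of_nonneg hx, abs_of_nonneg hy]
    _ ≤ |u| * (M * (k : ℤ) ^ 2) + |v| * (M * (k : ℤ) ^ 2) :=
        add_le_add (mul_le_mul_of_nonneg_left hxM (abs_nonneg _)) (mul_le_mul_of_nonneg_left hyM (abs_nonneg _))
    _ = (|u| + |v|) * M * (k : ℤ) ^ 2 := by ring
    _ ≤ C * (k : ℤ) ^ 2 := mul_le_mul_of_nonneg_right hC (by positivity)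
    _ ≤ C * (k : ℤ) ^ C := mul_le_mul_of_nonneg_left hk2 (by positivity)

/-- `α m + β f(m)` for a multiplicative `f` with `f(p) = p + c` -/
theorem bil_mul {f : ℕ → ℕ} {c : ℤ} (hmul : ∀ m n : ℕ, Nat.Coprime m n → f (m * n) = f m * f n)
    (hprime : ∀ p : ℕ, p.Prime → (f p : ℤ) = p + c)
    (hgr : ∀ ε : ℝ, 0 < ε → ∃ C : ℝ, ∀ m : ℕ, 1 ≤ m → (f m : ℝ) ≤ C * (m : ℝ) ^ (1 + ε)) {α β : ℤ}
    (hpos : ∀ m : ℕ, 2 ≤ m → 0 < α * m + β * f m) : Bil (comb α β f) := by
  refine ⟨comb_growth hgr α β, ?_⟩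
  obtain ⟨M, hM1, hM⟩ := sq_growth hgr
  obtain ⟨C, hC⟩ : ∃ C : ℕ, C = ((|α| + |β| + |β * c| + |β * c ^ 2|) * M).toNat + 2 := ⟨_, rfl⟩
  have hCz : (|α| + |β| + |β * c| + |β * c ^ 2|) * M ≤ (C : ℤ) := by
    rw [hC]
    push_cast
    have := Int.self_le_toNat ((|α| + |β| + |β * c| + |β * c ^ 2|) * M)
    linarith
  have hMz : (0 : ℤ) ≤ M := by positivity
  have g1 := abs_nonneg α
  have g2 := abs_nonneg β
  have g3 := abs_nonneg (β * c)
  have g4 := abs_nonneg (β * c ^ 2)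
  refine ⟨C, fun k => α * k + β * f k, fun k => 0 * k + β * c * f k, fun k => 0 * k + β * c ^ 2 * f k, fun k hk => ?_⟩
  obtain ⟨h1, h2⟩ := hM k (by omega)
  refine ⟨(hpos k hk).ne', size hk (by positivity) (by positivity) h1 h2 (le_trans ?_ hCz) (by omega),
    size hk (by positivity) (by positivity) h1 h2 (le_trans ?_ hCz) (by omega),
    size hk (by positivity) (by positivity) h1 h2 (le_trans ?_ hCz) (by omega), ?_⟩
  · exact mul_le_mul_of_nonneg_right (by linarith) hMz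
  · rw [abs_zero]
    exact mul_le_mul_of_nonneg_right (by linarith) hMz
  · rw [abs_zero]
    exact mul_le_mul_of_nonneg_right (by linarith) hMz
  · intro p q hp hq hpq hpk hqk
    have c1 : Nat.Coprime k p := ((Nat.Prime.coprime_iff_not_dvd hp).2 hpk).symm
    have c2 : Nat.Coprime (k * p) q := by
      apply Nat.Coprime.mul_left ((Nat.Prime.coprime_iff_not_dvd hq).2 hqk).symm
      exact (Nat.coprime_primes hp hq).2 hpq
    have e1 : (f (k * p) : ℤ) = f k * (p + c) := by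
      rw [hmul k p c1]
      push_cast
      rw [hprime p hp]
    have e2 : (f (k * p * q) : ℤ) = f k * (p + c) * (q + c) := by
      rw [hmul (k * p) q c2]
      push_cast
      rw [e1, hprime q hq]
    have hkp : 2 ≤ k * p := le_trans hk (Nat.le_mul_of_pos_right k hp.pos)
    have hkpq : 2 ≤ k * p * q := le_trans hkp (Nat.le_mul_of_pos_right _ hq.pos)
    have p1 := hpos (k * p) hkp
    have p2 := hpos (k * p * q) hkpq
    rw [e1] at p1
    have e3 : ((comb α β f (k * p * q) : ℕ) : ℤ) = α * ((k * p * q : ℕ) : ℤ) + β * f (k * p * q) := by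
      unfold comb
      exact Int.toNat_of_nonneg p2.le
    refine ⟨?_, ?_, ?_⟩
    · push_cast at p1
      intro h0
      apply p1.ne'
      rw [← h0]
      ring
    · have : (0 : ℤ) < ((comb α β f (k * p * q) : ℕ) : ℤ) := by rw [e3]; exact p2
      exact_mod_cast this
    · rw [e3, e2]
      push_cast
      ring

/-- the arithmetic derivative -/
def deriv (m : ℕ) : ℕ := ∑ p ∈ m.primeFactors, m.factorization p * (m / p)

lemma deriv_mul (m n : ℕ) (h : Nat.Coprime m n) : deriv (m * n) = m * deriv n + n * deriv m := by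
  rcases Nat.eq_zero_or_pos m with hm | hm
  · subst hm
    rw [Nat.coprime_zero_left] at h
    subst h
    simp [deriv]
  rcases Nat.eq_zero_or_pos n with hn | hn
  · subst hn
    rw [Nat.coprime_zero_right] at h
    subst h
    simp [deriv]
  unfold deriv
  rw [h.primeFactors_mul, Finset.sum_union h.disjoint_primeFactors, add_comm, mul_sum, mul_sum]
  congr 1
  · apply sum_congr rfl
    intro p hp
    have h1 := Nat.dvd_of_mem_primeFactors hp
    have h2 : m.factorization p = 0 := Nat.factorization_eq_zero_of_not_dvd (fun hd => by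
      have := Nat.dvd_gcd hd h1
      rw [h] at this
      exact (Nat.prime_of_mem_primeFactors hp).one_lt.ne' (Nat.dvd_one.1 this))
    rw [Nat.factorization_mul hm.ne' hn.ne', Finsupp.add_apply, h2, zero_add, Nat.mul_div_assoc _ h1]
    ring
  · apply sum_congr rfl
    intro p hp
    have h1 := Nat.dvd_of_mem_primeFactors hp
    have h2 : n.factorization p = 0 := Nat.factorization_eq_zero_of_not_dvd (fun hd => by
      have := Nat.dvd_gcd h1 hd
      rw [h] at this
      exact (Nat.prime_of_mem_primeFactors hp).one_lt.ne' (Nat.dvd_one.1 this))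
    rw [Nat.factorization_mul hm.ne' hn.ne', Finsupp.add_apply, h2, add_zero, mul_comm m n,
      Nat.mul_div_assoc _ h1]
    ring

lemma deriv_prime (p : ℕ) (hp : p.Prime) : deriv p = 1 := by
  unfold deriv
  rw [hp.primeFactors, sum_singleton, hp.factorization_self, Nat.div_self hp.pos]

/-- the sum of the exponents is at most the binary logarithm -/
lemma sum_factorization_le (m : ℕ) (hm : 1 ≤ m) :
    ((∑ p ∈ m.primeFactors, m.factorization p : ℕ) : ℝ) * Real.log 2 ≤ Real.log m := by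
  have h1 : Real.log m = ∑ p ∈ m.primeFactors, (m.factorization p : ℝ) * Real.log p := by
    conv_lhs => rw [← Nat.prod_factorization_pow_eq_self (show m ≠ 0 by omega)]
    rw [Finsupp.prod, Nat.support_factorization, Nat.cast_prod, Real.log_prod]
    · apply sum_congr rfl
      intro p _
      rw [Nat.cast_pow, Real.log_pow]
    · intro p hp
      have := (Nat.prime_of_mem_primeFactors hp).pos
      positivity
  rw [h1]
  push_cast
  rw [sum_mul]
  apply sum_le_sum
  intro p hp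
  apply mul_le_mul_of_nonneg_left _ (Nat.cast_nonneg _)
  apply Real.log_le_log (by norm_num)
  exact_mod_cast (Nat.prime_of_mem_primeFactors hp).two_le

lemma deriv_le (m : ℕ) (hm : 1 ≤ m) : (deriv m : ℝ) ≤ m * Real.log m := by
  have hm0 : (0 : ℝ) < m := by exact_mod_cast hm
  have h1 := sum_factorization_le m hm
  have h2 : (deriv m : ℝ) ≤ m / 2 * ((∑ p ∈ m.primeFactors, m.factorization p : ℕ) : ℝ) := by
    unfold deriv
    push_cast
    rw [mul_sum]
    apply sum_le_sum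
    intro p hp
    rw [mul_comm ((m : ℝ) / 2)]
    apply mul_le_mul_of_nonneg_left _ (Nat.cast_nonneg _)
    refine (Nat.cast_div_le (α := ℝ)).trans ?_
    apply div_le_div_of_nonneg_left hm0.le (by norm_num)
    exact_mod_cast (Nat.prime_of_mem_primeFactors hp).two_le
  have h3 : (0 : ℝ) ≤ ((∑ p ∈ m.primeFactors, m.factorization p : ℕ) : ℝ) := Nat.cast_nonneg _
  have h4 := Real.log_two_gt_d9
  refine h2.trans ?_
  calc (m : ℝ) / 2 * ((∑ p ∈ m.primeFactors, m.factorization p : ℕ) : ℝ) =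
      m * (((∑ p ∈ m.primeFactors, m.factorization p : ℕ) : ℝ) * (1 / 2)) := by ring
    _ ≤ m * (((∑ p ∈ m.primeFactors, m.factorization p : ℕ) : ℝ) * Real.log 2) := by
        apply mul_le_mul_of_nonneg_left _ hm0.le
        exact mul_le_mul_of_nonneg_left (by linarith) h3
    _ ≤ m * Real.log m := mul_le_mul_of_nonneg_left h1 hm0.le

/-- `α m + β m'` -/
theorem bil_der {α β : ℤ} (hpos : ∀ m : ℕ, 2 ≤ m → 0 < α * m + β * deriv m) : Bil (comb α β deriv) := by
  have hgr : ∀ ε : ℝ, 0 < ε → ∃ C : ℝ, ∀ m : ℕ, 1 ≤ m → (deriv m : ℝ) ≤ C * (m : ℝ) ^ (1 + ε) := by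
    intro ε hε
    refine ⟨1 / ε, fun m hm => (deriv_le m hm).trans ?_⟩
    have hm0 : (0 : ℝ) < m := by exact_mod_cast hm
    have h1 := Real.log_le_rpow_div hm0.le hε
    rw [Real.rpow_add hm0, Real.rpow_one]
    calc (m : ℝ) * Real.log m ≤ m * ((m : ℝ) ^ ε / ε) := mul_le_mul_of_nonneg_left h1 hm0.le
      _ = _ := by ring
  refine ⟨comb_growth hgr α β, ?_⟩
  obtain ⟨M, hM1, hM⟩ := sq_growth hgr
  obtain ⟨C, hC⟩ : ∃ C : ℕ, C = ((|α| + |β|) * M).toNat + 2 := ⟨_, rfl⟩
  have hCz : (|α| + |β|) * M ≤ (C : ℤ) := by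
    rw [hC]
    push_cast
    have := Int.self_le_toNat ((|α| + |β|) * M)
    linarith
  have hMz : (0 : ℤ) ≤ M := by positivity
  have g1 := abs_nonneg α
  have g2 := abs_nonneg β
  refine ⟨C, fun k => α * k + β * deriv k, fun k => β * k + 0 * deriv k, fun k => 0 * k + 0 * deriv k, fun k hk => ?_⟩
  obtain ⟨h1, h2⟩ := hM k (by omega)
  refine ⟨(hpos k hk).ne', size hk (by positivity) (by positivity) h1 h2 hCz (by omega),
    size hk (by positivity) (by positivity) h1 h2 (le_trans ?_ hCz) (by omega),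
    size hk (by positivity) (by positivity) h1 h2 (le_trans ?_ hCz) (by omega), ?_⟩
  · rw [abs_zero]
    exact mul_le_mul_of_nonneg_right (by linarith) hMz
  · rw [abs_zero]
    exact mul_le_mul_of_nonneg_right (by linarith) hMz
  · intro p q hp hq hpq hpk hqk
    have c1 : Nat.Coprime k p := ((Nat.Prime.coprime_iff_not_dvd hp).2 hpk).symm
    have c2 : Nat.Coprime (k * p) q := by
      apply Nat.Coprime.mul_left ((Nat.Prime.coprime_iff_not_dvd hq).2 hqk).symm
      exact (Nat.coprime_primes hp hq).2 hpq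
    have e1 : (deriv (k * p) : ℤ) = k + p * deriv k := by
      rw [deriv_mul k p c1, deriv_prime p hp]
      push_cast
      ring
    have e2 : (deriv (k * p * q) : ℤ) = k * p + q * (k + p * deriv k) := by
      rw [deriv_mul (k * p) q c2, deriv_prime q hq]
      push_cast
      rw [e1]
      ring
    have hkp : 2 ≤ k * p := le_trans hk (Nat.le_mul_of_pos_right k hp.pos)
    have hkpq : 2 ≤ k * p * q := le_trans hkp (Nat.le_mul_of_pos_right _ hq.pos)
    have p1 := hpos (k * p) hkp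
    have p2 := hpos (k * p * q) hkpq
    rw [e1] at p1
    have e3 : ((comb α β deriv (k * p * q) : ℕ) : ℤ) = α * ((k * p * q : ℕ) : ℤ) + β * deriv (k * p * q) := by
      unfold comb
      exact Int.toNat_of_nonneg p2.le
    refine ⟨?_, ?_, ?_⟩
    · push_cast at p1
      intro h0
      apply p1.ne'
      rw [← h0]
      ring
    · have : (0 : ℤ) < ((comb α β deriv (k * p * q) : ℕ) : ℤ) := by rw [e3]; exact p2
      exact_mod_cast this
    · rw [e3, e2]
      push_cast
      ring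

/-- the sum of the divisors -/
def sig (m : ℕ) : ℕ := ∑ d ∈ m.divisors, d

lemma sig_mul (m n : ℕ) (h : Nat.Coprime m n) : sig (m * n) = sig m * sig n := by
  have h1 := ArithmeticFunction.isMultiplicative_sigma (k := 1)
  have h2 := h1.map_mul_of_coprime h
  simpa [ArithmeticFunction.sigma_one_apply, sig] using h2

lemma sig_prime (p : ℕ) (hp : p.Prime) : (sig p : ℤ) = p + 1 := by
  unfold sig
  rw [hp.sum_divisors]
  push_cast
  ring

lemma sig_growth : ∀ ε : ℝ, 0 < ε → ∃ C : ℝ, ∀ m : ℕ, 1 ≤ m → (sig m : ℝ) ≤ C * (m : ℝ) ^ (1 + ε) := by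
  intro ε hε
  obtain ⟨C, hC1, hC⟩ := Pool.Agent.H373R2.T4.DivB.div_bound hε
  refine ⟨C, fun m hm => ?_⟩
  have hm0 : (0 : ℝ) < m := by exact_mod_cast hm
  have h1 : (sig m : ℝ) ≤ (m.divisors.card : ℝ) * m := by
    unfold sig
    push_cast
    rw [← nsmul_eq_mul]
    apply sum_le_card_nsmul
    intro d hd
    exact_mod_cast Nat.divisor_le hd
  calc (sig m : ℝ) ≤ (m.divisors.card : ℝ) * m := h1
    _ ≤ C * (m : ℝ) ^ ε * m := mul_le_mul_of_nonneg_right (hC m (by omega)) hm0.le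
    _ = C * (m : ℝ) ^ (1 + ε) := by
        rw [Real.rpow_add hm0, Real.rpow_one]
        ring

/-- `α m + β σ(m)` -/
theorem bil_sig {α β : ℤ} (hpos : ∀ m : ℕ, 2 ≤ m → 0 < α * m + β * sig m) : Bil (comb α β sig) :=
  bil_mul sig_mul sig_prime sig_growth hpos

/-- `α m + β φ(m)` -/
theorem bil_tot {α β : ℤ} (hpos : ∀ m : ℕ, 2 ≤ m → 0 < α * m + β * Nat.totient m) : Bil (comb α β Nat.totient) := by
  refine bil_mul (c := -1) (fun m n h => Nat.totient_mul h) ?_ ?_ hpos
  · intro p hp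
    rw [Nat.totient_prime hp, Nat.cast_sub hp.one_le]
    push_cast
    ring
  · intro ε hε
    refine ⟨1, fun m hm => ?_⟩
    have hm1 : (1 : ℝ) ≤ m := by exact_mod_cast hm
    rw [one_mul]
    calc (Nat.totient m : ℝ) ≤ m := by exact_mod_cast Nat.totient_le m
      _ = (m : ℝ) ^ (1 : ℝ) := (Real.rpow_one _).symm
      _ ≤ _ := Real.rpow_le_rpow_of_exponent_le hm1 (by linarith)

/-- the sum of the proper divisors -/
def aliquot (m : ℕ) : ℕ := ∑ d ∈ m.properDivisors, d

/-- the cototient `m - φ(m)` -/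
def cototient (m : ℕ) : ℕ := m - Nat.totient m

lemma aliquot_pos (m : ℕ) (hm : 2 ≤ m) : 0 < aliquot m := by
  unfold aliquot
  have h1 : 1 ∈ m.properDivisors := Nat.one_mem_properDivisors_iff_one_lt.2 (by omega)
  calc 0 < 1 := one_pos
    _ ≤ ∑ d ∈ m.properDivisors, d := single_le_sum (f := fun d => d) (fun _ _ => Nat.zero_le _) h1

lemma sig_eq (m : ℕ) : sig m = aliquot m + m := by
  unfold sig aliquot
  exact Nat.sum_divisors_eq_sum_properDivisors_add_self

lemma aliquot_eq : aliquot = comb (-1) 1 sig := by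
  funext m
  unfold comb
  rw [sig_eq m]
  push_cast
  rw [show (-1 : ℤ) * m + 1 * (aliquot m + m) = ((aliquot m : ℕ) : ℤ) by ring, Int.toNat_natCast]

lemma cototient_eq : cototient = comb 1 (-1) Nat.totient := by
  funext m
  unfold comb cototient
  have h := Nat.totient_le m
  rw [show (1 : ℤ) * m + -1 * (Nat.totient m : ℤ) = ((m - Nat.totient m : ℕ) : ℤ) by
    rw [Nat.cast_sub h]
    ring, Int.toNat_natCast]

theorem bil_aliquot : Bil aliquot := by
  rw [aliquot_eq]
  refine bil_sig fun m hm => ?_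
  rw [sig_eq m]
  have : (0 : ℤ) < aliquot m := by exact_mod_cast aliquot_pos m hm
  push_cast
  linarith

theorem bil_cototient : Bil cototient := by
  rw [cototient_eq]
  refine bil_tot fun m hm => ?_
  have h : Nat.totient m < m := Nat.totient_lt m (by omega)
  have : (Nat.totient m : ℤ) < m := by exact_mod_cast h
  linarith

lemma deriv_pos (m : ℕ) (hm : 2 ≤ m) : 0 < deriv m := by
  obtain ⟨p, hp, hpm⟩ := Nat.exists_prime_and_dvd (show m ≠ 1 by omega)
  have h1 : p ∈ m.primeFactors := by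
    rw [Nat.mem_primeFactors]
    exact ⟨hp, hpm, by omega⟩
  have h2 : 1 ≤ m.factorization p := (hp.dvd_iff_one_le_factorization (by omega)).1 hpm
  have h3 : 0 < m / p := Nat.div_pos (Nat.le_of_dvd (by omega) hpm) hp.pos
  unfold deriv
  calc 0 < m.factorization p * (m / p) := Nat.mul_pos (by omega) h3
    _ ≤ _ := single_le_sum (f := fun p => m.factorization p * (m / p)) (fun _ _ => Nat.zero_le _) h1

theorem bil_deriv : Bil deriv := by
  have e : deriv = comb 0 1 deriv := by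
    funext m
    unfold comb
    simp
  rw [e]
  refine bil_der fun m hm => ?_
  have : (0 : ℤ) < deriv m := by exact_mod_cast deriv_pos m hm
  linarith

/-- the examples -/
theorem examples : Bil aliquot ∧ Bil cototient ∧ Bil deriv ∧
    (∀ α β : ℤ, (∀ m : ℕ, 2 ≤ m → 0 < α * m + β * sig m) → Bil (comb α β sig)) ∧
    (∀ α β : ℤ, (∀ m : ℕ, 2 ≤ m → 0 < α * m + β * Nat.totient m) → Bil (comb α β Nat.totient)) ∧
    ∀ α β : ℤ, (∀ m : ℕ, 2 ≤ m → 0 < α * m + β * deriv m) → Bil (comb α β deriv) :=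
  ⟨bil_aliquot, bil_cototient, bil_deriv, fun _ _ h => bil_sig h, fun _ _ h => bil_tot h, fun _ _ h => bil_der h⟩

end Run7.h527.TP
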