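import Pool.Agent.Run7.h527.TP.S

/-! Properties with a height: the tuples and the single arguments near values of functions which are bilinear in two large
primes. -/

set_option autoImplicit false

namespace Run7.h527.TP

/-- There is `δ > 0` such that for all large `N`, for all tuples `m ∈ [1, N] ^ k` with `Two τ (m_i)` for all `i` but at most
`N ^ (k - δ)` of them the property `E (C ^ T)` fails for ALL tuples `s` with `|s_i - F_i(m_i)| ≤ F_i(m_i) ^ θ` and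
`T ≤ s_i ≤ κ T`, `T ≥ 1`. -/
def ThinTwo {k : ℕ} (κ : ℕ) (C : ℝ) (F : Fin k → ℕ → ℕ) (θ τ : ℝ) (E : ℝ → (Fin k → ℕ) → Prop) : Prop :=
  ∃ δ : ℝ, 0 < δ ∧ ∃ N₀ : ℕ, ∀ N : ℕ, N₀ ≤ N →
    ({m : Fin k → ℕ | (∀ i, 1 ≤ m i ∧ m i ≤ N ∧ Two τ (m i)) ∧ ∃ (s : Fin k → ℕ) (T : ℕ), 1 ≤ T ∧
      (∀ i, T ≤ s i ∧ s i ≤ κ * T) ∧ (∀ i, |(s i : ℝ) - F i (m i)| ≤ (F i (m i) : ℝ) ^ θ) ∧ E (C ^ T) s}.ncard : ℝ) ≤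
      (N : ℝ) ^ ((k : ℝ) - δ)

/-- For all large `N`, for all `m ≤ N` but `ε N` of them the property `E (C ^ s)` fails at `s` for ALL integers `s ≥ 1` with
`|s - F(m)| ≤ F(m) ^ θ`. -/
def ThinOne (C : ℝ) (F : ℕ → ℕ) (θ ε : ℝ) (E : ℝ → (Fin 1 → ℕ) → Prop) : Prop :=
  ∃ N₀ : ℕ, ∀ N : ℕ, N₀ ≤ N →
    ({m : ℕ | 1 ≤ m ∧ m ≤ N ∧ ∃ s : ℕ, 1 ≤ s ∧ |(s : ℝ) - F m| ≤ (F m : ℝ) ^ θ ∧ E (C ^ s) (fun _ => s)}.ncard : ℝ) ≤ ε * N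

/-- there is `K` such that for all `C` and all large `N` at most `K N ^ (k - 1)` of the tuples `s ∈ [N, κ N] ^ k` have the
property `E (C ^ N)` -/
def FewTuples {k : ℕ} (κ : ℕ) (E : ℝ → (Fin k → ℕ) → Prop) : Prop :=
  ∃ K : ℕ, ∀ C : ℝ, ∃ N₀ : ℕ, ∀ N : ℕ, N₀ ≤ N →
    {s : Fin k → ℕ | (∀ j, N ≤ s j ∧ s j ≤ κ * N) ∧ E (C ^ N) s}.ncard ≤ K * N ^ (k - 1)

lemma pow_le_height (C : ℝ) {N T : ℕ} (h : T ≤ 2 * N) : C ^ T ≤ ((max |C| 1) ^ 2) ^ N := by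
  have h5 : (1 : ℝ) ≤ max |C| 1 := le_max_right _ _
  calc C ^ T ≤ |C ^ T| := le_abs_self _
    _ = |C| ^ T := abs_pow C T
    _ ≤ (max |C| 1) ^ T := pow_le_pow_left₀ (abs_nonneg C) (le_max_left _ _) T
    _ ≤ (max |C| 1) ^ (2 * N) := pow_le_pow_right₀ h5 h
    _ = _ := pow_mul _ _ _

theorem thin_two {k : ℕ} (hk : 1 ≤ k) (κ : ℕ) (C : ℝ) {F : Fin k → ℕ → ℕ} (hF : ∀ i, Bil (F i)) {θ τ : ℝ} (hθ : 0 ≤ θ)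
    (hτ : τ ≤ 1) (hθk : k * (θ + 1 - τ) < 1) {E : ℝ → (Fin k → ℕ) → Prop} (hE : ∀ H H' s, H ≤ H' → E H s → E H' s)
    (h : FewTuples (2 * κ) E) : ThinTwo κ C F θ τ E := by
  obtain ⟨K, hK⟩ := h
  obtain ⟨N₁, hN₁⟩ := hK ((max |C| 1) ^ 2)
  obtain ⟨δ, hδ, N₀, hN₀⟩ := keep_scales hk κ (fun T s => E (C ^ T) s) (fun N s => E (((max |C| 1) ^ 2) ^ N) s)
    (fun N T s h1 h2 h3 => hE _ _ s (pow_le_height C h2.le) h3) ⟨K, N₁, fun N hN => hN₁ N hN⟩ hF hθ hτ hθk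
  refine ⟨δ, hδ, N₀, fun N hN => le_trans (le_of_eq ?_) (hN₀ N hN)⟩
  congr 2
  ext m
  constructor
  · rintro ⟨h1, s, T, h2, h3, h4, h5⟩
    exact ⟨h1, fun h => h s T h2 h3 h4 h5⟩
  · rintro ⟨h1, h2⟩
    push Not at h2
    obtain ⟨s, T, h2, h3, h4, h5⟩ := h2
    exact ⟨h1, s, T, h2, h3, h4, h5⟩

theorem thin_one (ε : ℝ) (hε : 0 < ε) : ∃ θ : ℝ, 0 < θ ∧ ∀ (C : ℝ) (F : ℕ → ℕ), Bil F →
    ∀ E : ℝ → (Fin 1 → ℕ) → Prop, (∀ H H' s, H ≤ H' → E H s → E H' s) → FewTuples (2 * 1) E → ThinOne C F θ ε E := by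
  obtain ⟨θ, hθ, h⟩ := keep_one ε hε
  refine ⟨θ, hθ, ?_⟩
  rintro C F hF E hE ⟨K, hK⟩
  obtain ⟨N₁, hN₁⟩ := hK ((max |C| 1) ^ 2)
  obtain ⟨N₀, hN₀⟩ := h 1 (fun T s => E (C ^ T) s) (fun N s => E (((max |C| 1) ^ 2) ^ N) s)
    (fun N T s h1 h2 h3 => hE _ _ s (pow_le_height C h2.le) h3) ⟨K, N₁, fun N hN => hN₁ N hN⟩ F hF
  refine ⟨N₀, fun N hN => le_trans ?_ (hN₀ N hN)⟩
  have hsub : {m : ℕ | 1 ≤ m ∧ m ≤ N ∧ ∃ s : ℕ, 1 ≤ s ∧ |(s : ℝ) - F m| ≤ (F m : ℝ) ^ θ ∧ E (C ^ s) (fun _ => s)} ⊆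
      {m : ℕ | 1 ≤ m ∧ m ≤ N ∧ ¬ ∀ (s : Fin 1 → ℕ) (T : ℕ), 1 ≤ T → (∀ i, T ≤ s i ∧ s i ≤ 1 * T) →
        (∀ i, |(s i : ℝ) - F m| ≤ (F m : ℝ) ^ θ) → ¬ E (C ^ T) s} := by
    rintro m ⟨h1, h2, s, hs, hw', hEs⟩
    exact ⟨h1, h2, fun h4 => h4 (fun _ => s) s hs (fun _ => ⟨le_rfl, (one_mul s).ge⟩) (fun _ => hw') hEs⟩
  exact_mod_cast Set.ncard_le_ncard hsub ((Set.finite_Icc 1 N).subset fun m hm => ⟨hm.1, hm.2.1⟩)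

/-- The property `E` fails near almost all tuples of values: for all functions `F_i` of the class `Bil`, `θ ≥ 0`, `τ ≤ 1` with
`k (θ + 1 - τ) < 1` and all `κ`, `C` (`ThinTwo`). -/
def Near {k : ℕ} (E : ℝ → (Fin k → ℕ) → Prop) : Prop :=
  ∀ (κ : ℕ) (C : ℝ) (F : Fin k → ℕ → ℕ), (∀ i, Bil (F i)) → ∀ θ τ : ℝ, 0 ≤ θ → τ ≤ 1 → k * (θ + 1 - τ) < 1 →
    ThinTwo κ C F θ τ E

/-- For every `ε > 0` there is `θ > 0` such that for all `F` of the class `Bil` and all `C` the property `E` fails at all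
integers near `F m` for all `m ≤ N` but `ε N` (`ThinOne`). -/
def NearOne (E : ℝ → (Fin 1 → ℕ) → Prop) : Prop :=
  ∀ ε : ℝ, 0 < ε → ∃ θ : ℝ, 0 < θ ∧ ∀ (C : ℝ) (F : ℕ → ℕ), Bil F → ThinOne C F θ ε E

theorem near {k : ℕ} (hk : 1 ≤ k) {E : ℝ → (Fin k → ℕ) → Prop} (hE : ∀ H H' s, H ≤ H' → E H s → E H' s)
    (h : ∀ κ, FewTuples κ E) : Near E :=
  fun κ C _ hF _ _ hθ hτ hθk => thin_two hk κ C hF hθ hτ hθk hE (h (2 * κ))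

theorem near_one {E : ℝ → (Fin 1 → ℕ) → Prop} (hE : ∀ H H' s, H ≤ H' → E H s → E H' s)
    (h : ∀ κ, FewTuples κ E) : NearOne E := by
  intro ε hε
  obtain ⟨θ, hθ, h1⟩ := thin_one ε hε
  exact ⟨θ, hθ, fun C F hF => h1 C F hF E hE (h (2 * 1))⟩

end Run7.h527.TP
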