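import Pool.Agent.Run7.h527.TP.T

/-! Properties of tuples of integers which are bad for few tuples at every scale, near the values of functions which are
bilinear in two large primes (after part A of `N760/SC`, which is about multiplicative functions). -/

set_option autoImplicit false

namespace Run7.h527.TP

open Finset
open Pool.Agent.N760.SC (NearTuple BadTuples count_scales window_nat)

theorem count_near {k : ℕ} (W : Set (Fin k → ℕ)) {ρ θ : ℝ} (hρ : 0 ≤ ρ) (hθ : 0 ≤ θ) (hθ1 : θ ≤ 1) {C₀ : ℝ} (hC₀ : 0 ≤ C₀)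
    (hW : ∀ X : ℕ, 1 ≤ X → ({s : Fin k → ℕ | s ∈ W ∧ ∀ i, s i ≤ X}.ncard : ℝ) ≤ C₀ * (X : ℝ) ^ ρ) :
    ∃ C₁ : ℝ, ∀ X : ℕ, 1 ≤ X → ({v : Fin k → ℕ | (∀ i, 1 ≤ v i ∧ v i ≤ X) ∧ v ∈ NearTuple W θ}.ncard : ℝ) ≤
      C₁ * (X : ℝ) ^ (ρ + k * θ) := by
  classical
  refine ⟨C₀ * 2 ^ ρ * 3 ^ k, fun X hX => ?_⟩
  have hX1 : (1 : ℝ) ≤ X := by exact_mod_cast hX
  have hfin : {s : Fin k → ℕ | s ∈ W ∧ ∀ i, s i ≤ 2 * X}.Finite := by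
    refine (Set.Finite.pi' (t := fun _ : Fin k => Set.Iic (2 * X)) fun _ => Set.finite_Iic _).subset ?_
    intro s hs j
    exact hs.2 j
  obtain ⟨V, hV⟩ : ∃ V : (Fin k → ℕ) → Finset (Fin k → ℕ), V = fun s => Fintype.piFinset (fun i =>
      (Icc 1 X).filter (fun v : ℕ => |(s i : ℝ) - v| ≤ (v : ℝ) ^ θ)) := ⟨_, rfl⟩
  have hVc : ∀ s, ((V s).card : ℝ) ≤ (3 * (X : ℝ) ^ θ) ^ k := by
    intro s
    rw [hV, Fintype.card_piFinset]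
    push_cast
    calc ∏ i : Fin k, (((Icc 1 X).filter (fun v : ℕ => |(s i : ℝ) - v| ≤ (v : ℝ) ^ θ)).card : ℝ)
        ≤ ∏ _i : Fin k, 3 * (X : ℝ) ^ θ := by
          refine prod_le_prod (fun i _ => Nat.cast_nonneg _) (fun i _ => window_nat X hX (s i) θ hθ _ ?_)
          intro v hv
          rw [mem_filter, mem_Icc] at hv
          exact ⟨hv.1.1, hv.1.2, hv.2⟩
      _ = (3 * (X : ℝ) ^ θ) ^ k := by rw [prod_const, card_univ, Fintype.card_fin]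
  have hsub : {v : Fin k → ℕ | (∀ i, 1 ≤ v i ∧ v i ≤ X) ∧ v ∈ NearTuple W θ} ⊆
      ((hfin.toFinset.biUnion V : Finset (Fin k → ℕ)) : Set (Fin k → ℕ)) := by
    rintro v ⟨h1, s, hs, h2⟩
    rw [Finset.mem_coe, Finset.mem_biUnion]
    refine ⟨s, ?_, ?_⟩
    · rw [Set.Finite.mem_toFinset]
      refine ⟨hs, fun i => ?_⟩
      have h3 := (abs_le.1 (h2 i)).2
      have hv1 : (1 : ℝ) ≤ v i := by exact_mod_cast (h1 i).1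
      have hvX : (v i : ℝ) ≤ X := by exact_mod_cast (h1 i).2
      have h4 : (v i : ℝ) ^ θ ≤ v i := by
        calc (v i : ℝ) ^ θ ≤ (v i : ℝ) ^ (1 : ℝ) := Real.rpow_le_rpow_of_exponent_le hv1 hθ1
          _ = v i := Real.rpow_one _
      have h5 : (s i : ℝ) ≤ ((2 * X : ℕ) : ℝ) := by push_cast; linarith
      exact_mod_cast h5
    · rw [hV, Fintype.mem_piFinset]
      intro i
      rw [mem_filter, mem_Icc]
      exact ⟨h1 i, h2 i⟩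
  have h1 := Set.ncard_le_ncard hsub (Finset.finite_toSet _)
  rw [Set.ncard_coe_finset] at h1
  have h2 : ((hfin.toFinset.biUnion V).card : ℝ) ≤ (C₀ * ((2 * X : ℕ) : ℝ) ^ ρ) * (3 * (X : ℝ) ^ θ) ^ k := by
    calc ((hfin.toFinset.biUnion V).card : ℝ) ≤ ∑ s ∈ hfin.toFinset, ((V s).card : ℝ) := by
          exact_mod_cast card_biUnion_le
      _ ≤ ∑ _s ∈ hfin.toFinset, (3 * (X : ℝ) ^ θ) ^ k := sum_le_sum (fun s _ => hVc s)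
      _ = (({s : Fin k → ℕ | s ∈ W ∧ ∀ i, s i ≤ 2 * X}.ncard : ℕ) : ℝ) * (3 * (X : ℝ) ^ θ) ^ k := by
          rw [sum_const, nsmul_eq_mul, ← Set.ncard_eq_toFinset_card _ hfin]
      _ ≤ _ := mul_le_mul_of_nonneg_right (hW (2 * X) (by omega)) (by positivity)
  calc ({v : Fin k → ℕ | (∀ i, 1 ≤ v i ∧ v i ≤ X) ∧ v ∈ NearTuple W θ}.ncard : ℝ)
      ≤ ((hfin.toFinset.biUnion V).card : ℝ) := by exact_mod_cast h1
    _ ≤ (C₀ * ((2 * X : ℕ) : ℝ) ^ ρ) * (3 * (X : ℝ) ^ θ) ^ k := h2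
    _ = (C₀ * 2 ^ ρ * 3 ^ k) * ((X : ℝ) ^ ρ * ((X : ℝ) ^ θ) ^ k) := by
        push_cast
        rw [Real.mul_rpow (by norm_num) (by linarith), mul_pow]
        ring
    _ = (C₀ * 2 ^ ρ * 3 ^ k) * (X : ℝ) ^ (ρ + k * θ) := by
        congr 1
        rw [← Real.rpow_natCast ((X : ℝ) ^ θ) k, ← Real.rpow_mul (by linarith), ← Real.rpow_add (by linarith)]
        congr 1
        ring

/-- **Values of functions which are bilinear in two large primes.** A property of tuples at scales, bad for at most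
`K N ^ (k - 1)` tuples at the scale `N`. If `k (θ + 1 - τ) < 1` then for all tuples `m` in `[1, N] ^ k` with `Two τ (m_i)` for
all `i` but at most `N ^ (k - δ)`, no tuple `s` near the tuple of the values `F_i (m_i)` is bad at a scale `T` with all `s_i` in
`[T, κ T]`. -/
theorem keep_scales {k : ℕ} (hk : 1 ≤ k) (κ : ℕ) (P Q : ℕ → (Fin k → ℕ) → Prop)
    (hPQ : ∀ (N T : ℕ) (s : Fin k → ℕ), N ≤ T → T < 2 * N → P T s → Q N s)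
    (hQ : ∃ K N₀ : ℕ, ∀ N : ℕ, N₀ ≤ N →
      {s : Fin k → ℕ | (∀ j, N ≤ s j ∧ s j ≤ (2 * κ) * N) ∧ Q N s}.ncard ≤ K * N ^ (k - 1))
    {F : Fin k → ℕ → ℕ} (hF : ∀ i, Bil (F i)) {θ τ : ℝ} (hθ : 0 ≤ θ) (hτ : τ ≤ 1) (hθk : k * (θ + 1 - τ) < 1) :
    ∃ δ : ℝ, 0 < δ ∧ ∃ N₀ : ℕ, ∀ N : ℕ, N₀ ≤ N →
      ({m : Fin k → ℕ | (∀ i, 1 ≤ m i ∧ m i ≤ N ∧ Two τ (m i)) ∧ ¬ ∀ (s : Fin k → ℕ) (T : ℕ), 1 ≤ T →
        (∀ i, T ≤ s i ∧ s i ≤ κ * T) → (∀ i, |(s i : ℝ) - F i (m i)| ≤ (F i (m i) : ℝ) ^ θ) → ¬ P T s}.ncard : ℝ) ≤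
        (N : ℝ) ^ ((k : ℝ) - δ) := by
  have hk1 : (1 : ℝ) ≤ k := by exact_mod_cast hk
  obtain ⟨ε, hε⟩ : ∃ ε : ℝ, ε = (1 - k * (θ + 1 - τ)) / 2 := ⟨_, rfl⟩
  have hε0 : 0 < ε := by rw [hε]; linarith
  have hθ1 : θ ≤ 1 := by nlinarith
  obtain ⟨C₀, hC₀, h1⟩ := count_scales hk κ P Q hPQ hQ ε hε0
  obtain ⟨C₁, h2⟩ := count_near (BadTuples κ P) (ρ := (k : ℝ) - 1 + ε) (θ := θ) (by linarith) hθ hθ1 hC₀ h1
  obtain ⟨δ, hδ, N₀, hN₀⟩ := tuples hk hF (τ := τ) (c := 1 - ε - k * θ) hτ (by nlinarith) (by nlinarith) C₁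
  refine ⟨δ, hδ, N₀, fun N hN => ?_⟩
  have h3 := hN₀ N hN (NearTuple (BadTuples κ P) θ) (fun X hX => by
    refine (h2 X hX).trans (le_of_eq ?_)
    congr 2
    ring)
  refine le_trans ?_ h3
  have hfin : {m : Fin k → ℕ | (∀ i, 1 ≤ m i ∧ m i ≤ N ∧ Two τ (m i)) ∧
      (fun i => F i (m i)) ∈ NearTuple (BadTuples κ P) θ}.Finite := by
    refine (Set.Finite.pi' (t := fun _ : Fin k => Set.Icc 1 N) fun _ => Set.finite_Icc _ _).subset ?_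
    intro m hm i
    exact ⟨(hm.1 i).1, (hm.1 i).2.1⟩
  refine Nat.cast_le.2 (Set.ncard_le_ncard ?_ hfin)
  rintro m ⟨g1, g2⟩
  push Not at g2
  obtain ⟨s, T, hT, hs, hw, hP⟩ := g2
  exact ⟨g1, s, ⟨T, hT, hs, hP⟩, hw⟩

/-- one variable: for every `ε > 0` there is `θ > 0` such that this holds for all `m ≤ N` but `ε N` -/
theorem keep_one (ε : ℝ) (hε : 0 < ε) : ∃ θ : ℝ, 0 < θ ∧ ∀ (κ : ℕ) (P Q : ℕ → (Fin 1 → ℕ) → Prop),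
    (∀ (N T : ℕ) (s : Fin 1 → ℕ), N ≤ T → T < 2 * N → P T s → Q N s) →
    (∃ K N₀ : ℕ, ∀ N : ℕ, N₀ ≤ N → {s : Fin 1 → ℕ | (∀ j, N ≤ s j ∧ s j ≤ (2 * κ) * N) ∧ Q N s}.ncard ≤ K * N ^ (1 - 1)) →
    ∀ F : ℕ → ℕ, Bil F → ∃ N₀ : ℕ, ∀ N : ℕ, N₀ ≤ N →
      ({m : ℕ | 1 ≤ m ∧ m ≤ N ∧ ¬ ∀ (s : Fin 1 → ℕ) (T : ℕ), 1 ≤ T →
        (∀ i, T ≤ s i ∧ s i ≤ κ * T) → (∀ i, |(s i : ℝ) - F m| ≤ (F m : ℝ) ^ θ) → ¬ P T s}.ncard : ℝ) ≤ ε * N := by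
  obtain ⟨τ, hτ0, hτ1, hden⟩ := density (ε / 2) (by positivity)
  refine ⟨τ / 2, by linarith, fun κ P Q hPQ hQ F hF => combine hε hden _ ?_⟩
  obtain ⟨δ, hδ, N₀, hN₀⟩ := keep_scales (k := 1) le_rfl κ P Q hPQ hQ (F := fun _ => F) (fun _ => hF) (θ := τ / 2) (τ := τ)
    (by linarith) hτ1 (by push_cast; linarith)
  refine ⟨δ, hδ, N₀, fun N hN => ?_⟩
  have h := hN₀ N hN
  push_cast at h
  refine le_trans ?_ h
  have hfin : {m : Fin 1 → ℕ | (∀ i, 1 ≤ m i ∧ m i ≤ N ∧ Two τ (m i)) ∧ ¬ ∀ (s : Fin 1 → ℕ) (T : ℕ), 1 ≤ T →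
        (∀ i, T ≤ s i ∧ s i ≤ κ * T) → (∀ i, |(s i : ℝ) - F (m i)| ≤ (F (m i) : ℝ) ^ (τ / 2)) → ¬ P T s}.Finite := by
    refine (Set.Finite.pi' (t := fun _ : Fin 1 => Set.Icc 1 N) fun _ => Set.finite_Icc _ _).subset ?_
    intro m hm i
    exact ⟨(hm.1 i).1, (hm.1 i).2.1⟩
  refine Nat.cast_le.2 (Set.ncard_le_ncard_of_injOn (fun m : ℕ => (fun _ : Fin 1 => m)) (fun m hm => ?_) ?_ hfin)
  · exact ⟨fun _ => ⟨hm.1, hm.2.1, hm.2.2.1⟩, hm.2.2.2⟩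
  · intro m _ m' _ h'
    exact congrFun h' 0

end Run7.h527.TP
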