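import Pool.Agent.Run7.h527.TP.Cb
import Pool.Agent.N760.SC.A

/-! Tuples of values of functions which are bilinear in two large primes. -/

set_option autoImplicit false

namespace Run7.h527.TP

open Finset

open Classical in
/-- every value is taken at most `N ^ (1 - τ + ε)` times -/
theorem fibre {g : ℕ → ℕ} (hg : Bil g) {τ : ℝ} (hτ : τ ≤ 1) {ε : ℝ} (hε : 0 < ε) :
    ∃ N₀ : ℕ, ∀ N : ℕ, N₀ ≤ N → ∀ n : ℕ,
      (((Icc 1 N).filter (fun m => Two τ m ∧ g m = n)).card : ℝ) ≤ (N : ℝ) ^ (1 - τ + ε) := by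
  obtain ⟨C, a, b, e, hform⟩ := hg.form
  obtain ⟨B, hB⟩ : ∃ B : ℝ, B = ((2 * C + 4 : ℕ) : ℝ) := ⟨_, rfl⟩
  have hB0 : 0 < B := by rw [hB]; positivity
  obtain ⟨ε₂, hε₂⟩ : ∃ ε₂, ε₂ = ε / 2 / B := ⟨_, rfl⟩
  have hε₂0 : 0 < ε₂ := by rw [hε₂]; positivity
  obtain ⟨C₁, hC₁⟩ := hg.growth 1 one_pos
  obtain ⟨C₂, hC₂1, hC₂⟩ := Pool.Agent.H373R2.T4.DivB.div_bound hε₂0
  have ev1 : ∀ᶠ N : ℕ in Filter.atTop, 2 * C₂ ≤ (N : ℝ) ^ (ε / 2) :=
    ((tendsto_rpow_atTop (show 0 < ε / 2 by linarith)).comp tendsto_natCast_atTop_atTop).eventually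
      (Filter.eventually_ge_atTop (2 * C₂))
  have ev2 : ∀ᶠ N : ℕ in Filter.atTop, |C₁| ≤ (N : ℝ) :=
    tendsto_natCast_atTop_atTop.eventually (Filter.eventually_ge_atTop |C₁|)
  obtain ⟨N₀, hN₀⟩ := Filter.eventually_atTop.1 ((ev1.and ev2).and
    (Filter.eventually_ge_atTop (3 * C ^ 2 + 3 * C + 1)))
  refine ⟨N₀, fun N hN n => ?_⟩
  obtain ⟨⟨hN1, hN2⟩, hN3⟩ := hN₀ N hN
  have hNn : 1 ≤ N := by omega
  have hN0 : (1 : ℝ) ≤ N := by exact_mod_cast hNn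
  have hNpos : (0 : ℝ) < N := by linarith
  rcases ((Icc 1 N).filter (fun m => Two τ m ∧ g m = n)).eq_empty_or_nonempty with he | he
  · rw [he, card_empty, Nat.cast_zero]
    positivity
  have hn3 : n ≤ N ^ 3 := by
    obtain ⟨m, hm⟩ := he
    rw [mem_filter, mem_Icc] at hm
    obtain ⟨⟨hm1, hmN⟩, -, hgm⟩ := hm
    have h1 := hC₁ m hm1
    rw [hgm] at h1
    have hm0 : (0 : ℝ) ≤ m := Nat.cast_nonneg _
    have hmN' : (m : ℝ) ≤ N := by exact_mod_cast hmN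
    have h2 : (m : ℝ) ^ ((1 : ℝ) + 1) = (m : ℝ) ^ 2 := by
      rw [← Real.rpow_natCast]
      norm_num
    rw [h2] at h1
    have h3 : (n : ℝ) ≤ (N : ℝ) ^ 3 := by
      calc (n : ℝ) ≤ C₁ * (m : ℝ) ^ 2 := h1
        _ ≤ |C₁| * (m : ℝ) ^ 2 := mul_le_mul_of_nonneg_right (le_abs_self _) (by positivity)
        _ ≤ N * (N : ℝ) ^ 2 := mul_le_mul hN2 (pow_le_pow_left₀ hm0 hmN' 2) (by positivity) hNpos.le
        _ = (N : ℝ) ^ 3 := by ring
    exact_mod_cast h3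
  obtain ⟨Y, hY⟩ : ∃ Y : ℕ, Y = ⌊(N : ℝ) ^ (1 - τ)⌋₊ := ⟨_, rfl⟩
  have hYr : (Y : ℝ) ≤ (N : ℝ) ^ (1 - τ) := by
    rw [hY]
    exact Nat.floor_le (by positivity)
  obtain ⟨F, hF⟩ : ∃ F : ℝ, F = 2 * (C₂ * (N : ℝ) ^ (ε / 2)) := ⟨_, rfl⟩
  obtain ⟨T, hT⟩ : ∃ T : ℕ → Finset ℕ, T = fun k => (Icc 1 N).filter (fun m => g m = n ∧
    ∃ p q : ℕ, p.Prime ∧ q.Prime ∧ p ≠ q ∧ ¬ p ∣ k ∧ ¬ q ∣ k ∧ m = k * p * q) := ⟨_, rfl⟩
  have hsub : (Icc 1 N).filter (fun m => Two τ m ∧ g m = n) ⊆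
      ((Icc 1 Y).filter (fun k => 2 ≤ k)).biUnion fun k => T k := by
    intro m hm
    rw [mem_filter, mem_Icc] at hm
    obtain ⟨⟨hm1, hmN⟩, ⟨k, p, q, hk, hp, hq, hpq, hpk, hqk, hmk, hlarge⟩, hgW⟩ := hm
    have hkY := k_le hτ hm1 hmN hmk hlarge
    rw [← hY] at hkY
    rw [mem_biUnion]
    refine ⟨k, by rw [mem_filter, mem_Icc]; omega, ?_⟩
    rw [hT, mem_filter, mem_Icc]
    exact ⟨⟨hm1, hmN⟩, hgW, p, q, hp, hq, hpq, hpk, hqk, hmk⟩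
  have hfib : ∀ k ∈ (Icc 1 Y).filter (fun k => 2 ≤ k), ((T k).card : ℝ) ≤ F := by
    intro k hk
    rw [mem_filter, mem_Icc] at hk
    obtain ⟨⟨-, hkY⟩, hk2⟩ := hk
    obtain ⟨h1, h2, h3, h4, h5⟩ := hform k hk2
    rcases (T k).eq_empty_or_nonempty with he | he
    · rw [he, hF]
      simp only [card_empty, Nat.cast_zero]
      positivity
    · have hkN : k ≤ N := by
        obtain ⟨m, hm⟩ := he
        rw [hT, mem_filter, mem_Icc] at hm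
        obtain ⟨⟨hm1, hmN⟩, -, p, q, hp, hq, -, -, -, hmk⟩ := hm
        have : k ∣ m := ⟨p * q, by rw [hmk, mul_assoc]⟩
        exact (Nat.le_of_dvd (by omega) this).trans hmN
      have h6 := fib (n := n) h1 h5 (T k) (fun m hm => by
        rw [hT, mem_filter] at hm
        exact hm.2)
      obtain ⟨R, hR⟩ : ∃ R : ℕ, R = (a k * n + b k ^ 2 - a k * e k).natAbs := ⟨_, rfl⟩
      rw [← hR] at h6
      have h7 : R ≤ N ^ (2 * C + 4) := by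
        rw [hR]
        exact res_le h2 h3 h4 hkN hn3 hN3
      have h8 : (R.divisors.card : ℝ) ≤ C₂ * (N : ℝ) ^ (ε / 2) := by
        rcases Nat.eq_zero_or_pos R with h9 | h9
        · rw [h9]
          simp only [Nat.divisors_zero, card_empty, Nat.cast_zero]
          positivity
        · calc (R.divisors.card : ℝ) ≤ C₂ * (R : ℝ) ^ ε₂ := hC₂ R (by omega)
            _ ≤ C₂ * (((N : ℝ) ^ B)) ^ ε₂ := by
                apply mul_le_mul_of_nonneg_left _ (by linarith)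
                apply Real.rpow_le_rpow (Nat.cast_nonneg _) _ hε₂0.le
                rw [hB, Real.rpow_natCast]
                exact_mod_cast h7
            _ = C₂ * (N : ℝ) ^ (ε / 2) := by
                rw [← Real.rpow_mul hNpos.le, hε₂]
                congr 2
                field_simp
      have h9 : ((T k).card : ℝ) ≤ 2 * (R.divisors.card : ℝ) := by exact_mod_cast h6
      rw [hF]
      linarith
  have hF0 : 0 ≤ F := by
    rw [hF]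
    positivity
  calc (((Icc 1 N).filter (fun m => Two τ m ∧ g m = n)).card : ℝ)
      ≤ ∑ k ∈ (Icc 1 Y).filter (fun k => 2 ≤ k), ((T k).card : ℝ) := by
        exact_mod_cast (card_le_card hsub).trans card_biUnion_le
    _ ≤ ∑ _k ∈ (Icc 1 Y).filter (fun k => 2 ≤ k), F := sum_le_sum hfib
    _ = (((Icc 1 Y).filter (fun k => 2 ≤ k)).card : ℝ) * F := by rw [sum_const, nsmul_eq_mul]
    _ ≤ (Y : ℝ) * F := by
        apply mul_le_mul_of_nonneg_right _ hF0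
        have c3 : ((Icc 1 Y).filter (fun k => 2 ≤ k)).card ≤ Y := by
          refine (card_filter_le _ _).trans ?_
          rw [Nat.card_Icc]
          omega
        exact_mod_cast c3
    _ ≤ (N : ℝ) ^ (1 - τ) * ((N : ℝ) ^ (ε / 2) * (N : ℝ) ^ (ε / 2)) := by
        apply mul_le_mul hYr _ hF0 (by positivity)
        rw [hF]
        have : 0 ≤ (N : ℝ) ^ (ε / 2) := by positivity
        nlinarith
    _ = (N : ℝ) ^ (1 - τ + ε) := by
        rw [← Real.rpow_add hNpos, ← Real.rpow_add hNpos]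
        congr 1
        ring

/-- **Tuples.** -/
theorem tuples {k : ℕ} (hk : 1 ≤ k) {F : Fin k → ℕ → ℕ} (hF : ∀ i, Bil (F i)) {τ c : ℝ} (hτ : τ ≤ 1)
    (hc : k * (1 - τ) < c) (hck : c ≤ k) (C₁ : ℝ) :
    ∃ δ : ℝ, 0 < δ ∧ ∃ N₀ : ℕ, ∀ N : ℕ, N₀ ≤ N → ∀ W : Set (Fin k → ℕ),
      (∀ X : ℕ, 1 ≤ X → ({v : Fin k → ℕ | (∀ i, 1 ≤ v i ∧ v i ≤ X) ∧ v ∈ W}.ncard : ℝ) ≤ C₁ * (X : ℝ) ^ ((k : ℝ) - c)) →
      ({m : Fin k → ℕ | (∀ i, 1 ≤ m i ∧ m i ≤ N ∧ Two τ (m i)) ∧ (fun i => F i (m i)) ∈ W}.ncard : ℝ) ≤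
        (N : ℝ) ^ ((k : ℝ) - δ) := by
  classical
  have hk1 : (1 : ℝ) ≤ k := by exact_mod_cast hk
  obtain ⟨γ, hγ⟩ : ∃ γ : ℝ, γ = c - k * (1 - τ) := ⟨_, rfl⟩
  have hγ0 : 0 < γ := by rw [hγ]; linarith
  obtain ⟨ε, hε⟩ : ∃ ε : ℝ, ε = γ / (4 * k) := ⟨_, rfl⟩
  have hε0 : 0 < ε := by rw [hε]; positivity
  have hεk : ε * k = γ / 4 := by rw [hε]; field_simp
  have hgr : ∃ N₀ : ℕ, ∀ N : ℕ, N₀ ≤ N → ∀ i : Fin k, ∀ m : ℕ, 1 ≤ m → m ≤ N → (F i m : ℝ) ≤ (N : ℝ) ^ (1 + ε) := by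
    choose D hD using fun i => (hF i).growth (ε / 2) (by linarith)
    have ev : ∀ᶠ N : ℕ in Filter.atTop, ∀ i : Fin k, |D i| ≤ (N : ℝ) ^ (ε / 2) := by
      rw [Filter.eventually_all]
      intro i
      exact ((tendsto_rpow_atTop (show 0 < ε / 2 by linarith)).comp tendsto_natCast_atTop_atTop).eventually
        (Filter.eventually_ge_atTop |D i|)
    obtain ⟨N₀, hN₀⟩ := Filter.eventually_atTop.1 ev
    refine ⟨max N₀ 1, fun N hN i m hm hmN => ?_⟩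
    have hN1 : 1 ≤ N := (le_max_right _ _).trans hN
    have hN0 : (0 : ℝ) < N := by exact_mod_cast hN1
    have hmN' : (m : ℝ) ≤ N := by exact_mod_cast hmN
    calc (F i m : ℝ) ≤ D i * (m : ℝ) ^ (1 + ε / 2) := hD i m hm
      _ ≤ |D i| * (m : ℝ) ^ (1 + ε / 2) := mul_le_mul_of_nonneg_right (le_abs_self _) (by positivity)
      _ ≤ (N : ℝ) ^ (ε / 2) * (N : ℝ) ^ (1 + ε / 2) := mul_le_mul (hN₀ N ((le_max_left _ _).trans hN) i)
          (Real.rpow_le_rpow (Nat.cast_nonneg _) hmN' (by linarith)) (by positivity) (by positivity)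
      _ = (N : ℝ) ^ (1 + ε) := by
          rw [← Real.rpow_add hN0]
          congr 1
          ring
  obtain ⟨N₁, hN₁⟩ := hgr
  choose M hM using fun i => fibre (hF i) hτ hε0
  have evM : ∀ᶠ N : ℕ in Filter.atTop, ∀ i : Fin k, M i ≤ N := by
    rw [Filter.eventually_all]
    intro i
    exact Filter.eventually_ge_atTop (M i)
  have evC : ∀ᶠ N : ℕ in Filter.atTop, |C₁| ≤ (N : ℝ) ^ (γ / 4) :=
    ((tendsto_rpow_atTop (show 0 < γ / 4 by linarith)).comp tendsto_natCast_atTop_atTop).eventually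
      (Filter.eventually_ge_atTop |C₁|)
  obtain ⟨N₂, hN₂⟩ := Filter.eventually_atTop.1 (evM.and evC)
  refine ⟨γ / 4, by linarith, max (max N₁ N₂) 1, fun N hN W hW => ?_⟩
  have hN1 : N₁ ≤ N := ((le_max_left _ _).trans (le_max_left _ _)).trans hN
  obtain ⟨hMN, hCN⟩ := hN₂ N (((le_max_right _ _).trans (le_max_left _ _)).trans hN)
  have hNn : 1 ≤ N := (le_max_right _ _).trans hN
  have hNr : (1 : ℝ) ≤ N := by exact_mod_cast hNn
  have hN0 : (0 : ℝ) < N := by linarith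
  obtain ⟨X, hX⟩ : ∃ X : ℕ, X = ⌊(N : ℝ) ^ (1 + ε)⌋₊ := ⟨_, rfl⟩
  have hXr : (X : ℝ) ≤ (N : ℝ) ^ (1 + ε) := by
    rw [hX]
    exact Nat.floor_le (by positivity)
  have hX1 : 1 ≤ X := by
    rw [hX]
    exact Nat.le_floor (by push_cast; exact Real.one_le_rpow hNr (by linarith))
  have hVfin : {v : Fin k → ℕ | (∀ i, 1 ≤ v i ∧ v i ≤ X) ∧ v ∈ W}.Finite :=
    (Set.Finite.pi' (t := fun _ : Fin k => Set.Icc 1 X) fun _ => Set.finite_Icc _ _).subset fun v hv i => hv.1 i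
  obtain ⟨S, hS⟩ : ∃ S : (Fin k → ℕ) → Finset (Fin k → ℕ), S = fun v => Fintype.piFinset (fun i =>
      (Icc 1 N).filter (fun m => Two τ m ∧ F i m = v i)) := ⟨_, rfl⟩
  have hSc : ∀ v, ((S v).card : ℝ) ≤ ((N : ℝ) ^ (1 - τ + ε)) ^ k := by
    intro v
    rw [hS, Fintype.card_piFinset]
    push_cast
    calc ∏ i : Fin k, (((Icc 1 N).filter (fun m => Two τ m ∧ F i m = v i)).card : ℝ)
        ≤ ∏ _i : Fin k, (N : ℝ) ^ (1 - τ + ε) :=
          prod_le_prod (fun i _ => Nat.cast_nonneg _) (fun i _ => hM i N (hMN i) (v i))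
      _ = ((N : ℝ) ^ (1 - τ + ε)) ^ k := by rw [prod_const, card_univ, Fintype.card_fin]
  have hsub : {m : Fin k → ℕ | (∀ i, 1 ≤ m i ∧ m i ≤ N ∧ Two τ (m i)) ∧ (fun i => F i (m i)) ∈ W} ⊆
      ((hVfin.toFinset.biUnion S : Finset (Fin k → ℕ)) : Set (Fin k → ℕ)) := by
    rintro m ⟨h1, h2⟩
    rw [Finset.mem_coe, Finset.mem_biUnion]
    refine ⟨fun i => F i (m i), ?_, ?_⟩
    · rw [Set.Finite.mem_toFinset]
      refine ⟨fun i => ⟨?_, ?_⟩, h2⟩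
      · obtain ⟨-, -, j, p, q, hj, hp, hq, hpq, hpj, hqj, hmj, -⟩ := h1 i
        obtain ⟨C, a, b, e, hform⟩ := (hF i).form
        have := ((hform j hj).2.2.2.2 p q hp hq hpq hpj hqj).2.1
        rw [← hmj] at this
        exact this
      · rw [hX]
        exact Nat.le_floor (hN₁ N hN1 i (m i) (h1 i).1 (h1 i).2.1)
    · rw [hS, Fintype.mem_piFinset]
      intro i
      rw [mem_filter, mem_Icc]
      exact ⟨⟨(h1 i).1, (h1 i).2.1⟩, (h1 i).2.2, rfl⟩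
  have h1 := Set.ncard_le_ncard hsub (Finset.finite_toSet _)
  rw [Set.ncard_coe_finset] at h1
  have hkc : 0 ≤ (k : ℝ) - c := by linarith
  calc ({m : Fin k → ℕ | (∀ i, 1 ≤ m i ∧ m i ≤ N ∧ Two τ (m i)) ∧ (fun i => F i (m i)) ∈ W}.ncard : ℝ)
      ≤ ((hVfin.toFinset.biUnion S).card : ℝ) := by exact_mod_cast h1
    _ ≤ ∑ v ∈ hVfin.toFinset, ((S v).card : ℝ) := by exact_mod_cast card_biUnion_le
    _ ≤ ∑ _v ∈ hVfin.toFinset, ((N : ℝ) ^ (1 - τ + ε)) ^ k := sum_le_sum fun v _ => hSc v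
    _ = (({v : Fin k → ℕ | (∀ i, 1 ≤ v i ∧ v i ≤ X) ∧ v ∈ W}.ncard : ℕ) : ℝ) * ((N : ℝ) ^ (1 - τ + ε)) ^ k := by
        rw [sum_const, nsmul_eq_mul, ← Set.ncard_eq_toFinset_card _ hVfin]
    _ ≤ (C₁ * (X : ℝ) ^ ((k : ℝ) - c)) * ((N : ℝ) ^ (1 - τ + ε)) ^ k :=
        mul_le_mul_of_nonneg_right (hW X hX1) (by positivity)
    _ ≤ ((N : ℝ) ^ (γ / 4) * ((N : ℝ) ^ (1 + ε)) ^ ((k : ℝ) - c)) * ((N : ℝ) ^ (1 - τ + ε)) ^ k := by
        apply mul_le_mul_of_nonneg_right _ (by positivity)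
        calc C₁ * (X : ℝ) ^ ((k : ℝ) - c) ≤ |C₁| * (X : ℝ) ^ ((k : ℝ) - c) :=
              mul_le_mul_of_nonneg_right (le_abs_self _) (by positivity)
          _ ≤ (N : ℝ) ^ (γ / 4) * ((N : ℝ) ^ (1 + ε)) ^ ((k : ℝ) - c) :=
              mul_le_mul hCN (Real.rpow_le_rpow (Nat.cast_nonneg _) hXr hkc) (by positivity) (by positivity)
    _ = (N : ℝ) ^ (γ / 4 + (1 + ε) * ((k : ℝ) - c) + (1 - τ + ε) * k) := by
        rw [← Real.rpow_mul hN0.le, ← Real.rpow_natCast ((N : ℝ) ^ (1 - τ + ε)) k, ← Real.rpow_mul hN0.le,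
          ← Real.rpow_add hN0, ← Real.rpow_add hN0]
    _ ≤ (N : ℝ) ^ ((k : ℝ) - γ / 4) := by
        apply Real.rpow_le_rpow_of_exponent_le hNr
        have h2 : 0 ≤ ε * c := by
          have : 0 ≤ c := by
            have : 0 ≤ (k : ℝ) * (1 - τ) := mul_nonneg (by linarith) (by linarith)
            linarith
          positivity
        nlinarith

end Run7.h527.TP
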