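import Pool.Agent.Run7.h527.TP.S

/-! Tuples near the tuples of values of functions which are bilinear in two large primes, uniformly in the exceptional set. -/

set_option autoImplicit false

namespace Run7.h527.TP

open Finset
open Pool.Agent.N760.SC (NearTuple window_nat)

theorem count_near_explicit {k : ℕ} (W : Set (Fin k → ℕ)) {ρ θ : ℝ} (hρ : 0 ≤ ρ) (hθ : 0 ≤ θ) (hθ1 : θ ≤ 1) {C₀ : ℝ} (hC₀ : 0 ≤ C₀)
    (hW : ∀ X : ℕ, 1 ≤ X → ({s : Fin k → ℕ | s ∈ W ∧ ∀ i, s i ≤ X}.ncard : ℝ) ≤ C₀ * (X : ℝ) ^ ρ) :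
    ∀ X : ℕ, 1 ≤ X → ({v : Fin k → ℕ | (∀ i, 1 ≤ v i ∧ v i ≤ X) ∧ v ∈ NearTuple W θ}.ncard : ℝ) ≤
      C₀ * 2 ^ ρ * 3 ^ k * (X : ℝ) ^ (ρ + k * θ) := by
  classical
  intro X hX
  have hX1 : (1 : ℝ) ≤ X := by exact_mod_cast hX
  have hfin : {s : Fin k → ℕ | s ∈ W ∧ ∀ i, s i ≤ 2 * X}.Finite := by
    refine (Set.Finite.pi' (t := fun _ : Fin k => Set.Iic (2 * X)) fun _ => Set.finite_Iic _).subset ?_
    intro s hs j
    exact hs.2 j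
  obtain ⟨V, hV⟩ : ∃ V : (Fin k → ℕ) → Finset (Fin k → ℕ), V = fun s => Fintype.piFinset (fun i =>
      (Icc 1 X).filter (fun v : ℕ => |(s i : ℝ) - v| ≤ (v : ℝ) ^ θ)) := ⟨_, rfl⟩
  have hVc : ∀ s, ((V s).card : ℝ) ≤ (3 * (X : ℝ) ^ θ) ^ k := by
    intro s
    rw [hV, Fintype.card_piFinset]
    push_cast
    calc ∏ i : Fin k, (((Icc 1 X).filter (fun v : ℕ => |(s i : ℝ) - v| ≤ (v : ℝ) ^ θ)).card : ℝ)
        ≤ ∏ _i : Fin k, 3 * (X : ℝ) ^ θ := by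
          refine prod_le_prod (fun i _ => Nat.cast_nonneg _) (fun i _ => window_nat X hX (s i) θ hθ _ ?_)
          intro v hv
          rw [mem_filter, mem_Icc] at hv
          exact ⟨hv.1.1, hv.1.2, hv.2⟩
      _ = (3 * (X : ℝ) ^ θ) ^ k := by rw [prod_const, card_univ, Fintype.card_fin]
  have hsub : {v : Fin k → ℕ | (∀ i, 1 ≤ v i ∧ v i ≤ X) ∧ v ∈ NearTuple W θ} ⊆
      ((hfin.toFinset.biUnion V : Finset (Fin k → ℕ)) : Set (Fin k → ℕ)) := by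
    rintro v ⟨h1, s, hs, h2⟩
    rw [Finset.mem_coe, Finset.mem_biUnion]
    refine ⟨s, ?_, ?_⟩
    · rw [Set.Finite.mem_toFinset]
      refine ⟨hs, fun i => ?_⟩
      have h3 := (abs_le.1 (h2 i)).2
      have hv1 : (1 : ℝ) ≤ v i := by exact_mod_cast (h1 i).1
      have hvX : (v i : ℝ) ≤ X := by exact_mod_cast (h1 i).2
      have h4 : (v i : ℝ) ^ θ ≤ v i := by
        calc (v i : ℝ) ^ θ ≤ (v i : ℝ) ^ (1 : ℝ) := Real.rpow_le_rpow_of_exponent_le hv1 hθ1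
          _ = v i := Real.rpow_one _
      have h5 : (s i : ℝ) ≤ ((2 * X : ℕ) : ℝ) := by push_cast; linarith
      exact_mod_cast h5
    · rw [hV, Fintype.mem_piFinset]
      intro i
      rw [mem_filter, mem_Icc]
      exact ⟨h1 i, h2 i⟩
  have h1 := Set.ncard_le_ncard hsub (Finset.finite_toSet _)
  rw [Set.ncard_coe_finset] at h1
  have h2 : ((hfin.toFinset.biUnion V).card : ℝ) ≤ (C₀ * ((2 * X : ℕ) : ℝ) ^ ρ) * (3 * (X : ℝ) ^ θ) ^ k := by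
    calc ((hfin.toFinset.biUnion V).card : ℝ) ≤ ∑ s ∈ hfin.toFinset, ((V s).card : ℝ) := by
          exact_mod_cast card_biUnion_le
      _ ≤ ∑ _s ∈ hfin.toFinset, (3 * (X : ℝ) ^ θ) ^ k := sum_le_sum (fun s _ => hVc s)
      _ = (({s : Fin k → ℕ | s ∈ W ∧ ∀ i, s i ≤ 2 * X}.ncard : ℕ) : ℝ) * (3 * (X : ℝ) ^ θ) ^ k := by
          rw [sum_const, nsmul_eq_mul, ← Set.ncard_eq_toFinset_card _ hfin]
      _ ≤ _ := mul_le_mul_of_nonneg_right (hW (2 * X) (by omega)) (by positivity)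
  calc ({v : Fin k → ℕ | (∀ i, 1 ≤ v i ∧ v i ≤ X) ∧ v ∈ NearTuple W θ}.ncard : ℝ)
      ≤ ((hfin.toFinset.biUnion V).card : ℝ) := by exact_mod_cast h1
    _ ≤ (C₀ * ((2 * X : ℕ) : ℝ) ^ ρ) * (3 * (X : ℝ) ^ θ) ^ k := h2
    _ = (C₀ * 2 ^ ρ * 3 ^ k) * ((X : ℝ) ^ ρ * ((X : ℝ) ^ θ) ^ k) := by
        push_cast
        rw [Real.mul_rpow (by norm_num) (by linarith), mul_pow]
        ring
    _ = (C₀ * 2 ^ ρ * 3 ^ k) * (X : ℝ) ^ (ρ + k * θ) := by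
        congr 1
        rw [← Real.rpow_natCast ((X : ℝ) ^ θ) k, ← Real.rpow_mul (by linarith), ← Real.rpow_add (by linarith)]
        congr 1
        ring


/-- Exceptional sets of tuples with a power saving, uniformly: if at most `C₀ X ^ (k - c)` of the tuples in `[0, X] ^ k` are in
`W`, for all `X`, and `k (θ + 1 - τ) < c ≤ 1`, then for all `m ∈ [1, N] ^ k` with `Two τ (m_i)` but `N ^ (k - δ)` no tuple `s`
with `|s_i - F_i(m_i)| ≤ F_i(m_i) ^ θ` is in `W`. -/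
theorem windows_tuples {k : ℕ} (hk : 1 ≤ k) {F : Fin k → ℕ → ℕ} (hF : ∀ i, Bil (F i)) {θ τ c : ℝ} (hθ : 0 ≤ θ)
    (hτ : τ ≤ 1) (hc : k * (θ + 1 - τ) < c) (hc1 : c ≤ 1) {C₀ : ℝ} (hC₀ : 0 ≤ C₀) :
    ∃ δ : ℝ, 0 < δ ∧ ∃ N₀ : ℕ, ∀ N : ℕ, N₀ ≤ N → ∀ W : Set (Fin k → ℕ),
      (∀ X : ℕ, 1 ≤ X → ({s : Fin k → ℕ | s ∈ W ∧ ∀ i, s i ≤ X}.ncard : ℝ) ≤ C₀ * (X : ℝ) ^ ((k : ℝ) - c)) →
      ({m : Fin k → ℕ | (∀ i, 1 ≤ m i ∧ m i ≤ N ∧ Two τ (m i)) ∧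
        ∃ s ∈ W, ∀ i, |(s i : ℝ) - F i (m i)| ≤ (F i (m i) : ℝ) ^ θ}.ncard : ℝ) ≤ (N : ℝ) ^ ((k : ℝ) - δ) := by
  have hk1 : (1 : ℝ) ≤ k := by exact_mod_cast hk
  have hkθ : (k : ℝ) * θ ≤ 1 := by
    have h1 : 0 ≤ (k : ℝ) * (1 - τ) := mul_nonneg (by linarith) (by linarith)
    have h2 : (k : ℝ) * (θ + 1 - τ) = k * θ + k * (1 - τ) := by ring
    linarith
  have hθ1 : θ ≤ 1 := by
    have h1 : 1 * θ ≤ k * θ := mul_le_mul_of_nonneg_right hk1 hθ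
    linarith
  obtain ⟨δ, hδ, N₀, hN₀⟩ := tuples hk hF (τ := τ) (c := c - k * θ) hτ (by
    have h2 : (k : ℝ) * (θ + 1 - τ) = k * θ + k * (1 - τ) := by ring
    linarith) (by
    have h1 : 0 ≤ (k : ℝ) * θ := by positivity
    linarith) (C₀ * 2 ^ ((k : ℝ) - c) * 3 ^ k)
  refine ⟨δ, hδ, N₀, fun N hN W hW => ?_⟩
  refine hN₀ N hN (NearTuple W θ) fun X hX => ?_
  refine (count_near_explicit W (ρ := (k : ℝ) - c) (by linarith) hθ hθ1 hC₀ hW X hX).trans (le_of_eq ?_)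
  congr 2
  ring

end Run7.h527.TP
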