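import Pool.Agent.Run7.h527.TP.W

/-! Tuples of integers in boxes, near the tuples of values of functions which are bilinear in two large primes. -/

set_option autoImplicit false

namespace Run7.h527.TP

open Finset

/-- If in every box `x_s < |t_s| ≤ x_s + N` at most `C N^(k-1) ∑ (1 + N / (x_s + N)^e)` of the `k`-tuples of integers have the
property `E`, and `k (θ + 1 - τ) < min e 1`, then for all `m ∈ [1, N] ^ k` with `Two τ (m_i)` but `N ^ (k - η)` no tuple `t` of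
nonzero integers with `||t_i| - F_i(m_i)| ≤ F_i(m_i) ^ θ` has the property `E`. -/
theorem windows_int {k : ℕ} (hk : 1 ≤ k) {F : Fin k → ℕ → ℕ} (hF : ∀ i, Bil (F i)) {θ τ e C : ℝ} (hθ : 0 ≤ θ)
    (hτ : τ ≤ 1) (hc : k * (θ + 1 - τ) < min e 1) (hC : 0 ≤ C) :
    ∃ η : ℝ, 0 < η ∧ ∃ N₀ : ℕ, ∀ N : ℕ, N₀ ≤ N → ∀ E : (Fin k → ℤ) → Prop,
      (∀ (x : Fin k → ℕ) (N : ℕ), 1 ≤ N → ∀ S : Finset (Fin k → ℤ),
        (∀ t ∈ S, (∀ s, (x s : ℤ) < |t s| ∧ |t s| ≤ x s + N) ∧ E t) →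
        (S.card : ℝ) ≤ C * (N : ℝ) ^ (k - 1) * ∑ s, (1 + N / ((x s : ℝ) + N) ^ e)) →
      ({m : Fin k → ℕ | (∀ i, 1 ≤ m i ∧ m i ≤ N ∧ Two τ (m i)) ∧
        ¬ ∀ t : Fin k → ℤ, (∀ i, t i ≠ 0 ∧ |(|(t i : ℝ)|) - F i (m i)| ≤ (F i (m i) : ℝ) ^ θ) → ¬ E t}.ncard : ℝ) ≤
        (N : ℝ) ^ ((k : ℝ) - η) := by
  classical
  obtain ⟨η, hη, N₀, hN₀⟩ := windows_tuples hk hF (c := min e 1) hθ hτ hc (min_le_right _ _)
    (C₀ := C * (2 * k)) (by positivity)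
  refine ⟨η, hη, N₀, fun N hN E hE => ?_⟩
  have h0 := hN₀ N hN {s : Fin k → ℕ | (∀ i, 1 ≤ s i) ∧ ∃ t : Fin k → ℤ, (∀ i, |t i| = s i) ∧ E t} (fun X hX => by
    have hX1 : (1 : ℝ) ≤ X := by exact_mod_cast hX
    have hX0 : (0 : ℝ) < X := by linarith
    obtain ⟨S, hS⟩ : ∃ S : Finset (Fin k → ℤ), S = (Fintype.piFinset fun _ : Fin k => Icc (-(X : ℤ)) X).filter
      (fun t : Fin k → ℤ => (∀ s, 0 < |t s| ∧ |t s| ≤ (X : ℤ)) ∧ E t) := ⟨_, rfl⟩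
    have h1 := hE (fun _ => 0) X hX S (fun t ht => by
      rw [hS, mem_filter] at ht
      refine ⟨fun s => ?_, ht.2.2⟩
      have := ht.2.1 s
      push_cast
      rw [zero_add]
      exact this)
    have hsub : {s : Fin k → ℕ | s ∈ {s : Fin k → ℕ | (∀ i, 1 ≤ s i) ∧ ∃ t : Fin k → ℤ, (∀ i, |t i| = s i) ∧ E t} ∧
        ∀ i, s i ≤ X} ⊆ ((S.image fun t i => (t i).natAbs : Finset (Fin k → ℕ)) : Set (Fin k → ℕ)) := by
      rintro s ⟨⟨h2, t, h3, h4⟩, h5⟩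
      rw [Finset.mem_coe, Finset.mem_image]
      refine ⟨t, ?_, ?_⟩
      · rw [hS, mem_filter, Fintype.mem_piFinset]
        have h6 : ∀ s', 0 < |t s'| ∧ |t s'| ≤ (X : ℤ) := by
          intro s'
          rw [h3 s']
          have a1 := h2 s'
          have a2 := h5 s'
          exact ⟨by exact_mod_cast a1, by exact_mod_cast a2⟩
        refine ⟨fun s' => ?_, h6, h4⟩
        rw [mem_Icc]
        exact abs_le.1 (h6 s').2
      · funext i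
        have := h3 i
        rw [Int.abs_eq_natAbs] at this
        exact_mod_cast this
    have h2 := Set.ncard_le_ncard hsub (Finset.finite_toSet _)
    rw [Set.ncard_coe_finset] at h2
    have h3 : (((S.image fun t i => (t i).natAbs).card : ℕ) : ℝ) ≤ S.card := by exact_mod_cast card_image_le
    have h4 : ∑ s : Fin k, (1 + (X : ℝ) / (((fun _ : Fin k => 0 : Fin k → ℕ) s : ℝ) + X) ^ e) ≤
        k * (2 * (X : ℝ) ^ (1 - min e 1)) := by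
      have h5 : ∀ s : Fin k, (1 + (X : ℝ) / (((fun _ : Fin k => 0 : Fin k → ℕ) s : ℝ) + X) ^ e) ≤
          2 * (X : ℝ) ^ (1 - min e 1) := by
        intro s
        have h6 : (X : ℝ) / (((fun _ : Fin k => 0 : Fin k → ℕ) s : ℝ) + X) ^ e = (X : ℝ) ^ (1 - e) := by
          rw [Nat.cast_zero, zero_add, Real.rpow_sub hX0, Real.rpow_one]
        rw [h6]
        have h7 : (X : ℝ) ^ (1 - e) ≤ (X : ℝ) ^ (1 - min e 1) :=
          Real.rpow_le_rpow_of_exponent_le hX1 (by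
            have := min_le_left e 1
            linarith)
        have h8 : 1 ≤ (X : ℝ) ^ (1 - min e 1) := Real.one_le_rpow hX1 (by
          have := min_le_right e 1
          linarith)
        linarith
      calc _ ≤ ∑ _s : Fin k, 2 * (X : ℝ) ^ (1 - min e 1) := sum_le_sum fun s _ => h5 s
        _ = k * (2 * (X : ℝ) ^ (1 - min e 1)) := by
            rw [sum_const, card_univ, Fintype.card_fin, nsmul_eq_mul]
    have h5 : (X : ℝ) ^ (k - 1) * (X : ℝ) ^ (1 - min e 1) = (X : ℝ) ^ ((k : ℝ) - min e 1) := by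
      rw [← Real.rpow_natCast (X : ℝ) (k - 1), ← Real.rpow_add hX0, Nat.cast_sub hk]
      congr 1
      push_cast
      ring
    calc (({s : Fin k → ℕ | s ∈ {s : Fin k → ℕ | (∀ i, 1 ≤ s i) ∧ ∃ t : Fin k → ℤ, (∀ i, |t i| = s i) ∧ E t} ∧
        ∀ i, s i ≤ X}.ncard : ℕ) : ℝ) ≤ ((S.image fun t i => (t i).natAbs).card : ℝ) := by exact_mod_cast h2
      _ ≤ S.card := h3
      _ ≤ C * (X : ℝ) ^ (k - 1) * ∑ s : Fin k, (1 + (X : ℝ) / (((fun _ : Fin k => 0 : Fin k → ℕ) s : ℝ) + X) ^ e) := h1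
      _ ≤ C * (X : ℝ) ^ (k - 1) * (k * (2 * (X : ℝ) ^ (1 - min e 1))) :=
          mul_le_mul_of_nonneg_left h4 (by positivity)
      _ = C * (2 * k) * ((X : ℝ) ^ (k - 1) * (X : ℝ) ^ (1 - min e 1)) := by ring
      _ = C * (2 * k) * (X : ℝ) ^ ((k : ℝ) - min e 1) := by rw [h5])
  refine le_trans ?_ h0
  have hfin : {m : Fin k → ℕ | (∀ i, 1 ≤ m i ∧ m i ≤ N ∧ Two τ (m i)) ∧
      ∃ s ∈ {s : Fin k → ℕ | (∀ i, 1 ≤ s i) ∧ ∃ t : Fin k → ℤ, (∀ i, |t i| = s i) ∧ E t},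
        ∀ i, |(s i : ℝ) - F i (m i)| ≤ (F i (m i) : ℝ) ^ θ}.Finite := by
    refine (Set.Finite.pi' (t := fun _ : Fin k => Set.Icc 1 N) fun _ => Set.finite_Icc _ _).subset ?_
    intro s hs j
    exact ⟨(hs.1 j).1, (hs.1 j).2.1⟩
  have hsub : {m : Fin k → ℕ | (∀ i, 1 ≤ m i ∧ m i ≤ N ∧ Two τ (m i)) ∧
      ¬ ∀ t : Fin k → ℤ, (∀ i, t i ≠ 0 ∧ |(|(t i : ℝ)|) - F i (m i)| ≤ (F i (m i) : ℝ) ^ θ) → ¬ E t} ⊆
      {m : Fin k → ℕ | (∀ i, 1 ≤ m i ∧ m i ≤ N ∧ Two τ (m i)) ∧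
      ∃ s ∈ {s : Fin k → ℕ | (∀ i, 1 ≤ s i) ∧ ∃ t : Fin k → ℤ, (∀ i, |t i| = s i) ∧ E t},
        ∀ i, |(s i : ℝ) - F i (m i)| ≤ (F i (m i) : ℝ) ^ θ} := by
    rintro m ⟨h1, h2⟩
    push Not at h2
    obtain ⟨t, h3, h4⟩ := h2
    refine ⟨h1, fun i => (t i).natAbs, ⟨fun i => ?_, t, fun i => Int.abs_eq_natAbs (t i), h4⟩, fun i => ?_⟩
    · have := Int.natAbs_pos.2 (h3 i).1
      exact this
    · have h5 : (((t i).natAbs : ℕ) : ℝ) = |(t i : ℝ)| := by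
        rw [Nat.cast_natAbs, Int.cast_abs]
      rw [h5]
      exact (h3 i).2
  exact_mod_cast Set.ncard_le_ncard hsub hfin

end Run7.h527.TP
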